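import Mathlib

/-!
Sums over a finite set with a self-map of order dividing `p`, and
rotation-invariant multilinear expressions in characteristic `p`.
-/

namespace Pool.Agent.Helper754

open Function

/-- In characteristic `p`, the cardinality of a set stable under a permutation of order dividing
`p` agrees with the number of its fixed points. -/
theorem card_cast_fixed {p : ℕ} [hp : Fact p.Prime] {k : Type*} [Field k] [CharP k p]
    {Y : Type*} [Fintype Y] [DecidableEq Y] (π : Equiv.Perm Y) (hπ : π ^ p = 1)
    (s : Finset Y) (hs : ∀ y, y ∈ s ↔ π y ∈ s) :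
    (s.card : k) = ((s.filter (fun y => π y = y)).card : k) := by
  classical
  let σ : Equiv.Perm {y // y ∈ s} := π.subtypePerm (fun y => (hs y).symm)
  have hσ : σ ^ p ^ 1 = 1 := by
    rw [pow_one]
    ext ⟨y, hy⟩
    simp only [σ, Equiv.Perm.subtypePerm_pow, Equiv.Perm.subtypePerm_apply]
    rw [hπ]
    rfl
  have h1 := Equiv.Perm.card_compl_support_modEq (p := p) (n := 1) hσ
  have h2 : (σ.supportᶜ.card : k) = (Fintype.card {y // y ∈ s} : k) :=
    (CharP.natCast_eq_natCast k p).2 h1
  rw [Fintype.card_coe] at h2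
  rw [← h2]
  congr 1
  symm
  refine Finset.card_bij' (fun y hy => (⟨y, (Finset.mem_filter.1 hy).1⟩ : {y // y ∈ s}))
    (fun y _ => y.1) ?_ ?_ ?_ ?_
  · intro y hy
    simp only [Finset.mem_compl, Equiv.Perm.mem_support, not_not]
    apply Subtype.ext
    simpa [σ] using (Finset.mem_filter.1 hy).2
  · intro y hy
    simp only [Finset.mem_compl, Equiv.Perm.mem_support, not_not] at hy
    refine Finset.mem_filter.2 ⟨y.2, ?_⟩
    have := congrArg Subtype.val hy
    simpa [σ] using this
  · intro y hy
    rfl
  · intro y hy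
    rfl

/-- A sum of a function invariant under a permutation of order dividing `p` reduces to the
fixed points. -/
theorem sum_eq_sum_fixed {p : ℕ} [hp : Fact p.Prime] {k : Type*} [Field k] [CharP k p]
    {Y : Type*} [Fintype Y] [DecidableEq Y] (π : Equiv.Perm Y) (hπ : π ^ p = 1)
    (F : Y → k) (hF : ∀ y, F (π y) = F y) :
    ∑ y, F y = ∑ y ∈ Finset.univ.filter (fun y => π y = y), F y := by
  classical
  have h1 : ∑ y, F y = ∑ c ∈ Finset.univ.image F,
      ((Finset.univ.filter (fun y => F y = c)).card : k) * c := by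
    rw [← Finset.sum_fiberwise_of_maps_to (t := Finset.univ.image F) (g := F)
      (fun y _ => Finset.mem_image_of_mem F (Finset.mem_univ y))]
    refine Finset.sum_congr rfl (fun c _ => ?_)
    rw [Finset.sum_congr rfl (fun y hy => (Finset.mem_filter.1 hy).2), Finset.sum_const,
      nsmul_eq_mul]
  have h2 : ∑ y ∈ Finset.univ.filter (fun y => π y = y), F y = ∑ c ∈ Finset.univ.image F,
      (((Finset.univ.filter (fun y => F y = c)).filter (fun y => π y = y)).card : k) * c := by
    rw [← Finset.sum_fiberwise_of_maps_to (t := Finset.univ.image F) (g := F)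
      (fun y _ => Finset.mem_image_of_mem F (Finset.mem_univ y))]
    refine Finset.sum_congr rfl (fun c _ => ?_)
    rw [Finset.sum_congr rfl (fun y hy => (Finset.mem_filter.1 hy).2), Finset.sum_const,
      nsmul_eq_mul, Finset.filter_comm]
  rw [h1, h2]
  refine Finset.sum_congr rfl (fun c _ => ?_)
  congr 1
  refine card_cast_fixed π hπ _ (fun y => ?_)
  simp [hF]

/-- The rotation of the functions on `ZMod p`. -/
def rotPerm (p : ℕ) (ι : Type*) : Equiv.Perm (ZMod p → ι) :=
  Equiv.arrowCongr (Equiv.addRight (-1 : ZMod p)) (Equiv.refl ι)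

theorem rotPerm_apply (p : ℕ) (ι : Type*) (u : ZMod p → ι) (i : ZMod p) :
    rotPerm p ι u i = u (i + 1) := by
  simp [rotPerm, Equiv.arrowCongr]

theorem rotPerm_pow_apply (p : ℕ) (ι : Type*) (n : ℕ) (u : ZMod p → ι) (i : ZMod p) :
    ((rotPerm p ι) ^ n) u i = u (i + n) := by
  induction n generalizing i with
  | zero => simp
  | succ n ih =>
    rw [pow_succ', Equiv.Perm.mul_apply, rotPerm_apply, ih]
    congr 1
    push_cast
    ring

theorem rotPerm_pow (p : ℕ) (ι : Type*) : (rotPerm p ι) ^ p = 1 := by
  ext u i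
  rw [rotPerm_pow_apply]
  simp

/-- A rotation invariant function sums to the sum over constant functions. -/
theorem sum_rot {p : ℕ} [hp : Fact p.Prime] {k : Type*} [Field k] [CharP k p]
    {ι : Type*} [Fintype ι] (F : (ZMod p → ι) → k)
    (hF : ∀ u, F (fun i => u (i + 1)) = F u) :
    ∑ u, F u = ∑ i, F (fun _ => i) := by
  classical
  rw [sum_eq_sum_fixed (rotPerm p ι) (rotPerm_pow p ι) F (fun u => by
    rw [← hF u]
    congr 1
    funext i
    exact rotPerm_apply p ι u i)]
  have hconst : ∀ u : ZMod p → ι, rotPerm p ι u = u → ∀ n : ℕ, u (n : ZMod p) = u 0 := by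
    intro u hu n
    induction n with
    | zero => simp
    | succ n ih =>
      rw [← ih]
      have := congrFun hu (n : ZMod p)
      rw [rotPerm_apply] at this
      push_cast
      exact this
  refine Finset.sum_bij' (fun u _ => u 0) (fun i _ => fun _ => i) ?_ ?_ ?_ ?_ ?_
  · intro u _
    exact Finset.mem_univ _
  · intro i _
    refine Finset.mem_filter.2 ⟨Finset.mem_univ _, ?_⟩
    funext j
    rw [rotPerm_apply]
  · intro u hu
    funext j
    have := hconst u (Finset.mem_filter.1 hu).2 j.val
    rw [ZMod.natCast_zmod_val] at this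
    exact this.symm
  · intro i _
    rfl
  · intro u hu
    congr 1
    funext j
    have := hconst u (Finset.mem_filter.1 hu).2 j.val
    rw [ZMod.natCast_zmod_val] at this
    exact this

/-- A multilinear map on `ZMod p`-tuples invariant under rotation. -/
theorem map_const_sum {p : ℕ} [hp : Fact p.Prime] {k : Type*} [Field k] [CharP k p]
    {V : Type*} [AddCommGroup V] [Module k V]
    (Φ : MultilinearMap k (fun _ : ZMod p => V) k)
    (hΦ : ∀ x : ZMod p → V, Φ (fun i => x (i + 1)) = Φ x)
    {ι : Type*} [Fintype ι] (v : ι → V) :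
    Φ (fun _ => ∑ i, v i) = ∑ i, Φ (fun _ => v i) := by
  classical
  have h := MultilinearMap.map_sum Φ (fun (_ : ZMod p) (i : ι) => v i)
  rw [h]
  exact sum_rot (fun u => Φ (fun i => v (u i))) (fun u => hΦ (fun i => v (u i)))

theorem map_const_add {p : ℕ} [hp : Fact p.Prime] {k : Type*} [Field k] [CharP k p]
    {V : Type*} [AddCommGroup V] [Module k V]
    (Φ : MultilinearMap k (fun _ : ZMod p => V) k)
    (hΦ : ∀ x : ZMod p → V, Φ (fun i => x (i + 1)) = Φ x) (a b : V) :
    Φ (fun _ => a + b) = Φ (fun _ => a) + Φ (fun _ => b) := by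
  have h := map_const_sum Φ hΦ (fun i : Fin 2 => if i = 0 then a else b)
  simpa using h

theorem map_const_smul {p : ℕ} [hp : Fact p.Prime] {k : Type*} [Field k]
    {V : Type*} [AddCommGroup V] [Module k V]
    (Φ : MultilinearMap k (fun _ : ZMod p => V) k) (c : k) (a : V) :
    Φ (fun _ => c • a) = c ^ p * Φ (fun _ => a) := by
  rw [MultilinearMap.map_smul_univ Φ (fun _ => c) (fun _ => a)]
  simp

end Pool.Agent.Helper754
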