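import Pool.Agent.Helper754_Equiv.Basic

/-!
The formal setting: a pair of dual representations `V`, `V'` with an invariant pairing `B`, and a
function `Ψ (y, x)` of two `ZMod p`-tuples, multilinear and rotation invariant in each of them.
-/

namespace Pool.Agent.Helper754

open Function

/-- A pair of spaces in duality with group actions and a doubly rotation invariant form. -/
structure Datum (p : ℕ) (k : Type*) [Field k] (G : Type*) [Group G] (V V' : Type*)
    [AddCommGroup V] [Module k V] [AddCommGroup V'] [Module k V'] where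
  /-- the pairing -/
  B : V' →ₗ[k] V →ₗ[k] k
  /-- action on `V` -/
  ρ : Representation k G V
  /-- action on `V'` -/
  ρ' : Representation k G V'
  inv : ∀ g a v, B (ρ' g a) (ρ g v) = B a v
  sepL : ∀ a, (∀ v, B a v = 0) → a = 0
  sepR : ∀ v, (∀ a, B a v = 0) → v = 0
  repr : ∀ f : V' →ₗ[k] k, ∃ v, ∀ a, B a v = f a
  repr' : ∀ f : V →ₗ[k] k, ∃ a, ∀ v, B a v = f v
  /-- the form as a function of the `V`-tuple -/
  R : (ZMod p → V') → MultilinearMap k (fun _ : ZMod p => V) k
  /-- the form as a function of the `V'`-tuple -/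
  L : (ZMod p → V) → MultilinearMap k (fun _ : ZMod p => V') k
  compat : ∀ y x, L x y = R y x
  rotR : ∀ y x, R y (fun i => x (i + 1)) = R y x
  rotL : ∀ x y, L x (fun i => y (i + 1)) = L x y
  invR : ∀ g y x, R (fun i => ρ' g (y i)) (fun i => ρ g (x i)) = R y x

variable {p : ℕ} [hp : Fact p.Prime] {k : Type*} [Field k] [CharP k p] [PerfectRing k p]
  {G : Type*} [Group G] {V V' : Type*}
  [AddCommGroup V] [Module k V] [AddCommGroup V'] [Module k V']

/-- Exchange of the two sides. -/
def Datum.swap {p : ℕ} {k : Type*} [Field k] {G : Type*} [Group G] {V V' : Type*}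
    [AddCommGroup V] [Module k V] [AddCommGroup V'] [Module k V']
    (D : Datum p k G V V') : Datum p k G V' V where
  B := D.B.flip
  ρ := D.ρ'
  ρ' := D.ρ
  inv := fun g a v => by simpa using D.inv g v a
  sepL := fun a h => D.sepR a (fun v => by simpa using h v)
  sepR := fun a h => D.sepL a (fun v => by simpa using h v)
  repr := fun f => by simpa using D.repr' f
  repr' := fun f => by simpa using D.repr f
  R := D.L
  L := D.R
  compat := fun y x => (D.compat x y).symm
  rotR := D.rotL
  rotL := D.rotR
  invR := fun g y x => by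
    rw [D.compat, D.compat]
    exact D.invR g x y

theorem pow_inj {a b : k} (h : a ^ p = b ^ p) : a = b :=
  frobenius_inj k p (by simpa [frobenius_def] using h)

/-- The `p`-th root. -/
noncomputable def root (p : ℕ) [Fact p.Prime] {k : Type*} [Field k] [CharP k p] [PerfectRing k p]
    (a : k) : k := (frobeniusEquiv k p).symm a

theorem root_pow (a : k) : (root p a) ^ p = a := by
  have h := (frobeniusEquiv k p).apply_symm_apply a
  rw [frobeniusEquiv_apply, frobenius_def] at h
  exact h

theorem root_add (a b : k) : root p (a + b) = root p a + root p b := by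
  simp [root]

namespace Datum

variable (D : Datum p k G V V')

/-- The linear functional `a ↦ (L x (a, ..., a)) ^ (1/p)`. -/
noncomputable def rootFun (x : ZMod p → V) : V' →ₗ[k] k where
  toFun a := root p (D.L x (fun _ => a))
  map_add' a b := by
    rw [map_const_add (D.L x) (D.rotL x), root_add]
  map_smul' c a := by
    apply pow_inj (p := p)
    rw [map_const_smul, root_pow, RingHom.id_apply, smul_eq_mul, mul_pow, root_pow]

/-- The `p`-th root vector of an `x`-tuple. -/
noncomputable def Rv (x : ZMod p → V) : V := Classical.choose (D.repr (D.rootFun x))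

theorem Rv_spec (x : ZMod p → V) (a : V') : (D.B a (D.Rv x)) ^ p = D.R (fun _ => a) x := by
  have h := Classical.choose_spec (D.repr (D.rootFun x)) a
  have h2 : D.B a (D.Rv x) = root p (D.L x (fun _ => a)) := h
  rw [h2, root_pow, D.compat]

theorem eq_of_pairing {u v : V} (h : ∀ a, D.B a u = D.B a v) : u = v := by
  have : u - v = 0 := D.sepR _ (fun a => by rw [map_sub, h a, sub_self])
  exact sub_eq_zero.1 this

theorem Rv_unique (x : ZMod p → V) (v : V)
    (h : ∀ a, (D.B a v) ^ p = D.R (fun _ => a) x) : v = D.Rv x :=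
  D.eq_of_pairing (fun a => pow_inj (p := p) (by rw [h, D.Rv_spec]))

theorem Rv_rot (x : ZMod p → V) : D.Rv (fun i => x (i + 1)) = D.Rv x :=
  D.Rv_unique x _ (fun a => by rw [D.Rv_spec, D.rotR])

theorem B_inv_left (g : G) (a : V') (v : V) : D.B (D.ρ' g⁻¹ a) v = D.B a (D.ρ g v) := by
  rw [← D.inv g (D.ρ' g⁻¹ a) v]
  congr 2
  rw [← Module.End.mul_apply, ← map_mul, mul_inv_cancel, map_one, Module.End.one_apply]

theorem Rv_equiv (g : G) (x : ZMod p → V) :
    D.Rv (fun i => D.ρ g (x i)) = D.ρ g (D.Rv x) := by
  symm
  apply D.Rv_unique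
  intro a
  rw [← D.B_inv_left, D.Rv_spec, ← D.invR g]
  congr 1
  congr 1
  funext i
  rw [← Module.End.mul_apply, ← map_mul, mul_inv_cancel, map_one, Module.End.one_apply]

/-- The endomorphism `θ v = R (v, ..., v)`. -/
noncomputable def θ : V →ₗ[k] V where
  toFun v := D.Rv (fun _ => v)
  map_add' u v := by
    symm
    apply D.Rv_unique
    intro a
    rw [map_add, add_pow_char, D.Rv_spec, D.Rv_spec, map_const_add (D.R _) (D.rotR _)]
  map_smul' c v := by
    symm
    apply D.Rv_unique
    intro a
    rw [map_smul, smul_eq_mul, mul_pow, RingHom.id_apply, D.Rv_spec, map_const_smul]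

theorem θ_spec (a : V') (v : V) : (D.B a (D.θ v)) ^ p = D.R (fun _ => a) (fun _ => v) :=
  D.Rv_spec _ a

theorem θ_comm (g : G) (v : V) : D.θ (D.ρ g v) = D.ρ g (D.θ v) :=
  D.Rv_equiv g (fun _ => v)

theorem θ_adj (a : V') (v : V) : D.B (D.swap.θ a) v = D.B a (D.θ v) := by
  apply pow_inj (p := p)
  rw [D.θ_spec]
  have h := D.swap.θ_spec v a
  change (D.B (D.swap.θ a) v) ^ p = D.L (fun _ => v) (fun _ => a) at h
  rw [h, D.compat]

/-- Vectors fixed by a subgroup. -/
def fix {k : Type*} [Field k] {G : Type*} [Group G] {V : Type*} [AddCommGroup V] [Module k V]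
    (ρ : Representation k G V) (H : Subgroup G) : Submodule k V where
  carrier := {v | ∀ h ∈ H, ρ h v = v}
  add_mem' := fun {u v} hu hv h hh => by rw [map_add, hu h hh, hv h hh]
  zero_mem' := fun h _ => map_zero _
  smul_mem' := fun c v hv h hh => by rw [map_smul, hv h hh]

theorem mem_fix {k : Type*} [Field k] {G : Type*} [Group G] {V : Type*} [AddCommGroup V]
    [Module k V] (ρ : Representation k G V) (H : Subgroup G) (v : V) :
    v ∈ fix ρ H ↔ ∀ h ∈ H, ρ h v = v := Iff.rfl

/-- Fixed vectors killed by all fixed functionals. -/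
def neg {p : ℕ} {k : Type*} [Field k] {G : Type*} [Group G] {V V' : Type*}
    [AddCommGroup V] [Module k V] [AddCommGroup V'] [Module k V']
    (D : Datum p k G V V') (H : Subgroup G) : Submodule k V where
  carrier := {v | v ∈ fix D.ρ H ∧ ∀ z ∈ fix D.ρ' H, D.B z v = 0}
  add_mem' := fun {u v} hu hv =>
    ⟨(fix D.ρ H).add_mem hu.1 hv.1, fun z hz => by rw [map_add, hu.2 z hz, hv.2 z hz, add_zero]⟩
  zero_mem' := ⟨(fix D.ρ H).zero_mem, fun z _ => map_zero _⟩
  smul_mem' := fun c v hv =>
    ⟨(fix D.ρ H).smul_mem c hv.1, fun z hz => by rw [map_smul, hv.2 z hz, smul_zero]⟩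

theorem mem_neg {p : ℕ} {k : Type*} [Field k] {G : Type*} [Group G] {V V' : Type*}
    [AddCommGroup V] [Module k V] [AddCommGroup V'] [Module k V']
    (D : Datum p k G V V') (H : Subgroup G) (v : V) :
    v ∈ D.neg H ↔ v ∈ fix D.ρ H ∧ ∀ z ∈ fix D.ρ' H, D.B z v = 0 := Iff.rfl

/-- Key fact: one negligible slot kills the form on fixed tuples. -/
theorem key (H : Subgroup G) (y : ZMod p → V') (x : ZMod p → V)
    (hy : ∀ i, y i ∈ fix D.ρ' H) (hx : ∀ i, x i ∈ fix D.ρ H) (i0 : ZMod p)
    (h0 : x i0 ∈ D.neg H) : D.R y x = 0 := by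
  classical
  obtain ⟨z, hz⟩ := D.repr' ((D.R y).toLinearMap x i0)
  have hzf : z ∈ fix D.ρ' H := by
    intro h hh
    have : D.ρ' h z - z = 0 := by
      apply D.sepL
      intro v
      have e1 : D.B (D.ρ' h z) v = D.B z (D.ρ h⁻¹ v) := by
        have := D.B_inv_left h⁻¹ z v
        rwa [inv_inv] at this
      rw [map_sub, LinearMap.sub_apply, e1, hz, hz, sub_eq_zero]
      rw [MultilinearMap.toLinearMap_apply, MultilinearMap.toLinearMap_apply, ← D.invR h]
      congr 1
      · congr 1
        funext i
        exact hy i h hh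
      · funext i
        by_cases hi : i = i0
        · subst hi
          rw [update_self, update_self, ← Module.End.mul_apply, ← map_mul, mul_inv_cancel,
            map_one, Module.End.one_apply]
        · rw [update_of_ne hi, update_of_ne hi]
          exact hx i h hh
    exact sub_eq_zero.1 this
  have h1 := hz (x i0)
  rw [MultilinearMap.toLinearMap_apply, update_eq_self] at h1
  rw [← h1]
  exact h0.2 z hzf

/-- Slots may be changed modulo negligible fixed vectors. -/
theorem key_congr (H : Subgroup G) (y : ZMod p → V') (x x' : ZMod p → V)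
    (hy : ∀ i, y i ∈ fix D.ρ' H) (hx : ∀ i, x i ∈ fix D.ρ H) (hx' : ∀ i, x' i ∈ fix D.ρ H)
    (h : ∀ i, x i - x' i ∈ D.neg H) : D.R y x = D.R y x' := by
  classical
  have main : ∀ s : Finset (ZMod p), D.R y (s.piecewise x x') = D.R y x' := by
    intro s
    induction s using Finset.induction_on with
    | empty => simp
    | insert i s hi ih =>
      rw [Finset.piecewise_insert]
      have e : x i = x' i + (x i - x' i) := by abel
      rw [e, MultilinearMap.map_update_add]
      have e1 : update (s.piecewise x x') i (x' i) = s.piecewise x x' := by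
        rw [update_eq_iff]
        exact ⟨(Finset.piecewise_eq_of_notMem s x x' hi).symm, fun _ _ => rfl⟩
      rw [e1, ih]
      have e2 : D.R y (update (s.piecewise x x') i (x i - x' i)) = 0 := by
        apply D.key H y _ hy _ i
        · rw [update_self]
          exact h i
        · intro j
          by_cases hj : j = i
          · subst hj
            rw [update_self]
            exact (h j).1
          · rw [update_of_ne hj]
            by_cases hjs : j ∈ s
            · rw [Finset.piecewise_eq_of_mem s x x' hjs]
              exact hx j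
            · rw [Finset.piecewise_eq_of_notMem s x x' hjs]
              exact hx' j
      rw [e2, add_zero]
  have := main Finset.univ
  rwa [Finset.piecewise_univ] at this

end Datum

end Pool.Agent.Helper754
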