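import Pool.Agent.Helper754_Equiv.Main

/-!
Restriction of the data to a generalised eigenspace of `θ`.
-/

namespace Pool.Agent.Helper754

open Function Module

theorem exists_eigen {k : Type*} [Field k] [IsAlgClosed k] {V : Type*} [AddCommGroup V]
    [Module k V] [FiniteDimensional k V] (f : Module.End k V) (hf : LinearMap.trace k V f ≠ 0) :
    ∃ μ : k, μ ≠ 0 ∧ (finrank k (f.maxGenEigenspace μ) : k) ≠ 0 := by
  classical
  by_contra hcon
  push Not at hcon
  apply hf
  have hds := DirectSum.isInternal_submodule_of_iSupIndep_of_iSup_eq_top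
    f.independent_maxGenEigenspace (Module.End.iSup_maxGenEigenspace_eq_top f)
  have h_fin : {μ | f.maxGenEigenspace μ ≠ ⊥}.Finite :=
    WellFoundedGT.finite_ne_bot_of_iSupIndep f.independent_maxGenEigenspace
  have hmaps : ∀ μ, Set.MapsTo f (f.maxGenEigenspace μ) (f.maxGenEigenspace μ) :=
    fun μ => f.mapsTo_maxGenEigenspace_of_comm (Commute.refl f) μ
  rw [LinearMap.trace_eq_sum_trace_restrict' hds h_fin hmaps]
  apply Finset.sum_eq_zero
  intro μ _
  have hnil := f.isNilpotent_restrict_maxGenEigenspace_sub_algebraMap μ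
  have h1 := LinearMap.trace_comp_eq_mul_of_commute_of_isNilpotent
    (f := (1 : Module.End k (f.maxGenEigenspace μ)))
    (g := f.restrict (hmaps μ)) μ (Commute.one_left _) hnil
  have h2 : (1 : Module.End k (f.maxGenEigenspace μ)) ∘ₗ (f.restrict (hmaps μ)) =
      f.restrict (hmaps μ) := LinearMap.id_comp _
  rw [h2, LinearMap.trace_one] at h1
  rw [h1]
  by_cases hμ : μ = 0
  · rw [hμ, zero_mul]
  · rw [hcon μ hμ, mul_zero]

theorem sep_restrict {k : Type*} [Field k] {V V' : Type*} [AddCommGroup V] [Module k V]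
    [AddCommGroup V'] [Module k V'] [FiniteDimensional k V]
    (B : V' →ₗ[k] V →ₗ[k] k) (F : Module.End k V) (F' : Module.End k V')
    (adj : ∀ a v, B (F' a) v = B a (F v)) (sep : ∀ a, (∀ v, B a v = 0) → a = 0) (μ : k)
    (a : V') (ha : a ∈ F'.maxGenEigenspace μ)
    (h : ∀ v ∈ F.maxGenEigenspace μ, B a v = 0) : a = 0 := by
  obtain ⟨n0, hn0⟩ := (Module.End.mem_maxGenEigenspace F' μ a).1 ha
  obtain ⟨n1, hn1⟩ := Filter.eventually_atTop.1
    (LinearMap.eventually_isCompl_ker_pow_range_pow (F - μ • (1 : Module.End k V)))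
  set E := F - μ • (1 : Module.End k V) with hE
  set E' := F' - μ • (1 : Module.End k V') with hE'
  let n := max n0 n1
  have hn := hn1 n (le_max_right _ _)
  have ha' : (E' ^ n) a = 0 := by
    have : n = (n - n0) + n0 := by have := le_max_left n0 n1; omega
    rw [this, pow_add, Module.End.mul_apply, hn0, map_zero]
  have hadj : ∀ (m : ℕ) (a : V') (v : V), B ((E' ^ m) a) v = B a ((E ^ m) v) := by
    intro m
    induction m with
    | zero => intro a v; simp
    | succ m ih =>
      intro a v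
      rw [pow_succ, Module.End.mul_apply, ih, pow_succ', Module.End.mul_apply, hE, hE']
      simp [adj]
  apply sep
  intro v
  have hv : v ∈ LinearMap.ker (E ^ n) ⊔ LinearMap.range (E ^ n) := by
    rw [hn.sup_eq_top]
    exact Submodule.mem_top
  obtain ⟨v1, hv1, w, ⟨x, rfl⟩, rfl⟩ := Submodule.mem_sup.1 hv
  rw [map_add, ← hadj, ha', map_zero, LinearMap.zero_apply, add_zero]
  apply h
  rw [Module.End.mem_maxGenEigenspace]
  exact ⟨n, LinearMap.mem_ker.1 hv1⟩

/-- A separating pairing of finite-dimensional spaces represents all functionals. -/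
theorem repr_of_sep {k : Type*} [Field k] {V V' : Type*} [AddCommGroup V] [Module k V]
    [AddCommGroup V'] [Module k V'] [FiniteDimensional k V] [FiniteDimensional k V']
    (B : V' →ₗ[k] V →ₗ[k] k) (sepL : ∀ a, (∀ v, B a v = 0) → a = 0)
    (sepR : ∀ v, (∀ a, B a v = 0) → v = 0) (f : V →ₗ[k] k) : ∃ a, ∀ v, B a v = f v := by
  have h1 : Injective B := by
    rw [← LinearMap.ker_eq_bot, LinearMap.ker_eq_bot']
    intro a ha
    exact sepL a (fun v => by rw [ha, LinearMap.zero_apply])
  have h2 : Injective B.flip := by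
    rw [← LinearMap.ker_eq_bot, LinearMap.ker_eq_bot']
    intro v hv
    exact sepR v (fun a => by rw [← LinearMap.flip_apply, hv, LinearMap.zero_apply])
  have d1 := LinearMap.finrank_le_finrank_of_injective h1
  have d2 := LinearMap.finrank_le_finrank_of_injective h2
  have e1 : finrank k (V →ₗ[k] k) = finrank k V := Subspace.dual_finrank_eq
  have e2 : finrank k (V' →ₗ[k] k) = finrank k V' := Subspace.dual_finrank_eq
  rw [e1] at d1
  rw [e2] at d2
  have h3 : Surjective B := by
    have hd : finrank k V' = finrank k (V →ₗ[k] k) := by rw [e1]; exact le_antisymm d1 d2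
    exact (LinearMap.injective_iff_surjective_of_finrank_eq_finrank hd).1 h1
  obtain ⟨a, ha⟩ := h3 f
  exact ⟨a, fun v => by rw [ha]⟩

namespace Datum

/-- Restriction of a datum to stable subspaces in duality. -/
def restrict {p : ℕ} {k : Type*} [Field k] {G : Type*} [Group G] {V V' : Type*}
    [AddCommGroup V] [Module k V] [AddCommGroup V'] [Module k V']
    [FiniteDimensional k V] [FiniteDimensional k V']
    (D : Datum p k G V V') (S : Submodule k V) (S' : Submodule k V')
    (hS : ∀ g, ∀ v ∈ S, D.ρ g v ∈ S) (hS' : ∀ g, ∀ v ∈ S', D.ρ' g v ∈ S')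
    (sL : ∀ a ∈ S', (∀ v ∈ S, D.B a v = 0) → a = 0)
    (sR : ∀ v ∈ S, (∀ a ∈ S', D.B a v = 0) → v = 0) : Datum p k G S S' where
  B := (D.B.compl₁₂ S'.subtype S.subtype)
  ρ :=
    { toFun := fun g => (D.ρ g).restrict (hS g)
      map_one' := by ext v; simp
      map_mul' := fun g h => by ext v; simp }
  ρ' :=
    { toFun := fun g => (D.ρ' g).restrict (hS' g)
      map_one' := by ext v; simp
      map_mul' := fun g h => by ext v; simp }
  inv := fun g a v => D.inv g a v
  sepL := fun a h => Subtype.ext (sL a a.2 (fun v hv => h ⟨v, hv⟩))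
  sepR := fun v h => Subtype.ext (sR v v.2 (fun a ha => h ⟨a, ha⟩))
  repr := fun f => repr_of_sep (D.B.compl₁₂ S'.subtype S.subtype).flip
    (fun v h => Subtype.ext (sR v v.2 (fun a ha => h ⟨a, ha⟩)))
    (fun a h => Subtype.ext (sL a a.2 (fun v hv => h ⟨v, hv⟩))) f
  repr' := fun f => repr_of_sep (D.B.compl₁₂ S'.subtype S.subtype)
    (fun a h => Subtype.ext (sL a a.2 (fun v hv => h ⟨v, hv⟩)))
    (fun v h => Subtype.ext (sR v v.2 (fun a ha => h ⟨a, ha⟩))) f
  R := fun y => (D.R (fun i => (y i : V'))).compLinearMap (fun _ => S.subtype)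
  L := fun x => (D.L (fun i => (x i : V))).compLinearMap (fun _ => S'.subtype)
  compat := fun y x => D.compat _ _
  rotR := fun y x => D.rotR (fun i => (y i : V')) (fun i => (x i : V))
  rotL := fun x y => D.rotL (fun i => (x i : V)) (fun i => (y i : V'))
  invR := fun g y x => D.invR g (fun i => (y i : V')) (fun i => (x i : V))

variable {p : ℕ} [hp : Fact p.Prime] {k : Type*} [Field k] [CharP k p] [PerfectRing k p]
  {G : Type*} [Group G] {V V' : Type*}
  [AddCommGroup V] [Module k V] [AddCommGroup V'] [Module k V']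
  [FiniteDimensional k V] [FiniteDimensional k V']
  (D : Datum p k G V V')

theorem restrict_θ (S : Submodule k V) (S' : Submodule k V')
    (hS : ∀ g, ∀ v ∈ S, D.ρ g v ∈ S) (hS' : ∀ g, ∀ v ∈ S', D.ρ' g v ∈ S')
    (sL : ∀ a ∈ S', (∀ v ∈ S, D.B a v = 0) → a = 0)
    (sR : ∀ v ∈ S, (∀ a ∈ S', D.B a v = 0) → v = 0)
    (hθ : ∀ v ∈ S, D.θ v ∈ S) (v : S) :
    (((D.restrict S S' hS hS' sL sR).θ v : S) : V) = D.θ v := by
  have h : (⟨D.θ v, hθ v v.2⟩ : S) = (D.restrict S S' hS hS' sL sR).θ v := by
    apply (D.restrict S S' hS hS' sL sR).Rv_unique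
    intro a
    exact D.θ_spec (a : V') (v : V)
  rw [← h]

/-- If `θ` has nonzero trace, the pairing of the fixed spaces is nonzero. -/
theorem exists_fixed_of_trace [IsAlgClosed k] [Finite G] (hG : IsPGroup p G)
    (htr : LinearMap.trace k V D.θ ≠ 0) :
    ∃ v a, (∀ g, D.ρ g v = v) ∧ (∀ g, D.ρ' g a = a) ∧ D.B a v ≠ 0 := by
  obtain ⟨μ, hμ, hdim⟩ := exists_eigen D.θ htr
  let S := Module.End.maxGenEigenspace D.θ μ
  let S' := Module.End.maxGenEigenspace D.swap.θ μ
  have hS : ∀ g, ∀ v ∈ S, D.ρ g v ∈ S := by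
    intro g v hv
    have hc : Commute D.θ (D.ρ g) := by
      apply LinearMap.ext
      intro w
      exact D.θ_comm g w
    exact Module.End.mapsTo_maxGenEigenspace_of_comm hc μ hv
  have hS' : ∀ g, ∀ v ∈ S', D.ρ' g v ∈ S' := by
    intro g v hv
    have hc : Commute D.swap.θ (D.ρ' g) := by
      apply LinearMap.ext
      intro w
      exact D.swap.θ_comm g w
    exact Module.End.mapsTo_maxGenEigenspace_of_comm hc μ hv
  have sL : ∀ a ∈ S', (∀ v ∈ S, D.B a v = 0) → a = 0 := fun a ha h =>
    sep_restrict D.B D.θ D.swap.θ D.θ_adj D.sepL μ a ha h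
  have sR : ∀ v ∈ S, (∀ a ∈ S', D.B a v = 0) → v = 0 := fun v hv h =>
    sep_restrict D.B.flip D.swap.θ D.θ
      (fun v a => (D.θ_adj a v).symm) (fun v h => D.sepR v h) μ v hv h
  have hθS : ∀ v ∈ S, D.θ v ∈ S := fun v hv =>
    Module.End.mapsTo_maxGenEigenspace_of_comm (Commute.refl D.θ) μ hv
  let D1 := D.restrict S S' hS hS' sL sR
  have hinj : Injective D1.θ := by
    rw [← LinearMap.ker_eq_bot, LinearMap.ker_eq_bot']
    intro v hv
    have h1 : D.θ (v : V) = 0 := by
      rw [← D.restrict_θ S S' hS hS' sL sR hθS v]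
      change ((D1.θ v : S) : V) = 0
      rw [hv]
      rfl
    -- a vector killed by `θ` in the eigenspace of `μ ≠ 0` vanishes
    obtain ⟨n, hn⟩ := (Module.End.mem_maxGenEigenspace D.θ μ (v : V)).1 v.2
    have h2 : ∀ m : ℕ, ((D.θ - μ • (1 : Module.End k V)) ^ m) (v : V) = (-μ) ^ m • (v : V) := by
      intro m
      induction m with
      | zero => simp
      | succ m ih =>
        rw [pow_succ', Module.End.mul_apply, ih, map_smul, pow_succ, mul_smul]
        congr 1
        simp [h1]
    rw [h2 n] at hn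
    have h3 : (v : V) = 0 := by
      rcases smul_eq_zero.1 hn with h | h
      · exact absurd h (pow_ne_zero n (neg_ne_zero.2 hμ))
      · exact h
    exact Subtype.ext h3
  have hbij : Bijective D1.θ := ⟨hinj, LinearMap.injective_iff_surjective.1 hinj⟩
  have hdim' : (finrank k S : ZMod p) ≠ 0 := by
    intro h
    apply hdim
    rw [ZMod.natCast_eq_zero_iff] at h
    exact (CharP.cast_eq_zero_iff k p _).2 h
  obtain ⟨v, a, hv, ha, hav⟩ := D1.exists_fixed_pair hG hbij hdim'
  refine ⟨v, a, fun g => ?_, fun g => ?_, hav⟩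
  · exact congrArg Subtype.val (hv g)
  · exact congrArg Subtype.val (ha g)

end Datum

end Pool.Agent.Helper754
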