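import Mathlib

/-!
Linear algebra of an operator of order `p` all of whose Jordan blocks have size `1` or `p`.
-/

namespace Pool.Agent.Helper754

open Module

theorem finrank_map_add {k : Type*} [Field k] {A B : Type*} [AddCommGroup A] [Module k A]
    [AddCommGroup B] [Module k B] [FiniteDimensional k A] (f : A →ₗ[k] B) (S : Submodule k A) :
    finrank k (S.map f) + finrank k (LinearMap.ker f ⊓ S : Submodule k A) = finrank k S := by
  have h := LinearMap.finrank_range_add_finrank_ker (f.domRestrict S)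
  rw [LinearMap.range_domRestrict, LinearMap.ker_domRestrict] at h
  rw [← h]
  congr 1
  have e : (LinearMap.ker f).comap S.subtype = (LinearMap.ker f ⊓ S).comap S.subtype := by
    ext x
    simp
  have h2 := (Submodule.comapSubtypeEquivOfLe
    (inf_le_right : LinearMap.ker f ⊓ S ≤ S)).finrank_eq
  rw [← h2, ← e]

theorem finrank_blocks {p : ℕ} [hp : Fact p.Prime] {k : Type*} [Field k] {A : Type*}
    [AddCommGroup A] [Module k A] [FiniteDimensional k A] (N : Module.End k A) (hN : N ^ p = 0)
    (h : LinearMap.ker N ⊓ LinearMap.range N ≤ LinearMap.range (N ^ (p - 1))) :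
    (finrank k A : ZMod p) =
      finrank k (LinearMap.ker N) - finrank k (LinearMap.range (N ^ (p - 1))) := by
  have hp2 := hp.out.two_le
  have hstep : ∀ j, 1 ≤ j → j ≤ p - 1 →
      finrank k (LinearMap.range (N ^ j)) = finrank k (LinearMap.range (N ^ (j + 1))) +
        finrank k (LinearMap.range (N ^ (p - 1))) := by
    intro j hj1 hj2
    have h1 := finrank_map_add N (LinearMap.range (N ^ j))
    have e1 : (LinearMap.range (N ^ j)).map N = LinearMap.range (N ^ (j + 1)) := by
      rw [pow_succ', Module.End.mul_eq_comp, LinearMap.range_comp]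
    have e2 : LinearMap.ker N ⊓ LinearMap.range (N ^ j) = LinearMap.range (N ^ (p - 1)) := by
      apply le_antisymm
      · refine le_trans (inf_le_inf_left _ ?_) h
        obtain ⟨i, rfl⟩ : ∃ i, j = i + 1 := ⟨j - 1, by omega⟩
        rw [pow_succ', Module.End.mul_eq_comp]
        exact LinearMap.range_comp_le_range _ _
      · apply le_inf
        · rintro _ ⟨x, rfl⟩
          rw [LinearMap.mem_ker, ← Module.End.mul_apply, ← pow_succ']
          have : p - 1 + 1 = p := by omega
          rw [this, hN]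
          rfl
        · have : p - 1 = j + (p - 1 - j) := by omega
          rw [this, pow_add, Module.End.mul_eq_comp]
          exact LinearMap.range_comp_le_range _ _
    rw [e1, e2] at h1
    exact h1.symm
  have hall : ∀ i, i ≤ p - 1 →
      finrank k (LinearMap.range (N ^ (p - i))) =
        i * finrank k (LinearMap.range (N ^ (p - 1))) := by
    intro i hi
    induction i with
    | zero => simp [hN]
    | succ i ih =>
      have h1 := hstep (p - (i + 1)) (by omega) (by omega)
      have e : p - (i + 1) + 1 = p - i := by omega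
      rw [e, ih (by omega)] at h1
      rw [h1]
      ring
  have h1 := hall (p - 1) le_rfl
  have e : p - (p - 1) = 1 := by omega
  rw [e, pow_one] at h1
  have h2 := LinearMap.finrank_range_add_finrank_ker N
  rw [← h2, h1]
  push_cast
  rw [Nat.cast_sub hp.out.one_le]
  simp
  ring

theorem sub_one_pow_geom {p : ℕ} [hp : Fact p.Prime] {k : Type*} [Field k] [CharP k p]
    {A : Type*} [AddCommGroup A] [Module k A] (γ : Module.End k A) :
    (γ - 1) ^ (p - 1) = ∑ j ∈ Finset.range p, γ ^ j := by
  have hpoly : (Polynomial.X - 1 : Polynomial k) ^ (p - 1) =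
      ∑ j ∈ Finset.range p, Polynomial.X ^ j := by
    have h0 : (Polynomial.X - 1 : Polynomial k) ≠ 0 := by
      have := Polynomial.X_sub_C_ne_zero (1 : k)
      simpa using this
    apply mul_right_cancel₀ h0
    rw [geom_sum_mul, ← pow_succ]
    have : p - 1 + 1 = p := by have := hp.out.two_le; omega
    rw [this, sub_pow_char, one_pow]
  have h := congrArg (Polynomial.aeval γ) hpoly
  simpa using h

/-- The counting step. -/
theorem count_step {p : ℕ} [hp : Fact p.Prime] {k : Type*} [Field k] [CharP k p] {A : Type*}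
    [AddCommGroup A] [Module k A] [FiniteDimensional k A] (γ : Module.End k A)
    (K F L : Submodule k A)
    (hγ : γ ^ p = 1)
    (hK : ∀ x ∈ K, γ x ∈ K)
    (hF : ∀ x ∈ F, γ x = x)
    (h1 : ∀ u, γ u - u ∈ K → ∃ v ∈ F, v - u ∈ K)
    (hLF : L ≤ F)
    (h2 : ∀ x, (∑ j ∈ Finset.range p, γ ^ j) x ∈ L)
    (h3 : ∀ v ∈ L, ∃ x, v - (∑ j ∈ Finset.range p, γ ^ j) x ∈ K)
    (h4 : F ⊓ K ≤ L)
    (h5 : ∀ v ∈ F, ∀ u, v - (γ u - u) ∈ K → v ∈ L) :
    (finrank k F : ZMod p) - finrank k L = finrank k A - finrank k K := by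
  have hK' : K ≤ K.comap γ := fun x hx => hK x hx
  let γM : Module.End k (A ⧸ K) := K.mapQ K γ hK'
  let N : Module.End k (A ⧸ K) := γM - 1
  have hNπ : ∀ x, N (K.mkQ x) = K.mkQ (γ x - x) := by
    intro x
    simp [N, γM]
  have hγMπ : ∀ x, γM (K.mkQ x) = K.mkQ (γ x) := by
    intro x
    simp [γM]
  have hγMpow : ∀ (n : ℕ) x, (γM ^ n) (K.mkQ x) = K.mkQ ((γ ^ n) x) := by
    intro n
    induction n with
    | zero => intro x; simp
    | succ n ih =>
      intro x
      rw [pow_succ', pow_succ', Module.End.mul_apply, Module.End.mul_apply, ih, hγMπ]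
  have hγM : γM ^ p = 1 := by
    ext x
    have := hγMpow p x
    rw [hγ] at this
    simpa using this
  have hNp : N ^ p = 0 := by
    have e : N ^ p = (γM - 1) ^ (p - 1) * (γM - 1) := by
      rw [← pow_succ]
      congr 1
      have := hp.out.two_le
      omega
    rw [e, sub_one_pow_geom (p := p), geom_sum_mul, hγM, sub_self]
  have hker : LinearMap.ker N = F.map K.mkQ := by
    ext m
    constructor
    · intro hm
      obtain ⟨u, rfl⟩ := K.mkQ_surjective m
      rw [LinearMap.mem_ker, hNπ, Submodule.mkQ_apply, Submodule.Quotient.mk_eq_zero] at hm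
      obtain ⟨v, hv, hvu⟩ := h1 u hm
      refine ⟨v, hv, ?_⟩
      rw [← sub_eq_zero, ← map_sub, Submodule.mkQ_apply, Submodule.Quotient.mk_eq_zero]
      exact hvu
    · rintro ⟨v, hv, rfl⟩
      rw [LinearMap.mem_ker, hNπ, hF v hv, sub_self, map_zero]
  have hrange : LinearMap.range (N ^ (p - 1)) = L.map K.mkQ := by
    have e : N ^ (p - 1) = ∑ j ∈ Finset.range p, γM ^ j := sub_one_pow_geom (p := p) γM
    have e2 : ∀ x, (N ^ (p - 1)) (K.mkQ x) = K.mkQ ((∑ j ∈ Finset.range p, γ ^ j) x) := by
      intro x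
      rw [e, LinearMap.sum_apply, LinearMap.sum_apply, map_sum]
      exact Finset.sum_congr rfl (fun j _ => hγMpow j x)
    ext m
    constructor
    · rintro ⟨n, rfl⟩
      obtain ⟨x, rfl⟩ := K.mkQ_surjective n
      rw [e2]
      exact ⟨_, h2 x, rfl⟩
    · rintro ⟨v, hv, rfl⟩
      obtain ⟨x, hx⟩ := h3 v hv
      refine ⟨K.mkQ x, ?_⟩
      rw [e2]
      symm
      rw [← sub_eq_zero, ← map_sub, Submodule.mkQ_apply, Submodule.Quotient.mk_eq_zero]
      exact hx
  have hinf : LinearMap.ker N ⊓ LinearMap.range N ≤ LinearMap.range (N ^ (p - 1)) := by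
    rw [hker, hrange]
    rintro m ⟨⟨v, hv, rfl⟩, ⟨n, hn⟩⟩
    obtain ⟨u, rfl⟩ := K.mkQ_surjective n
    refine ⟨v, h5 v hv u ?_, rfl⟩
    rw [hNπ] at hn
    rw [← Submodule.Quotient.mk_eq_zero, ← Submodule.mkQ_apply, map_sub, hn, sub_self]
  have hcount := finrank_blocks N hNp hinf
  rw [hker, hrange] at hcount
  have d1 := finrank_map_add K.mkQ F
  have d2 := finrank_map_add K.mkQ L
  rw [Submodule.ker_mkQ] at d1 d2
  have e3 : K ⊓ F = K ⊓ L := by
    apply le_antisymm
    · exact le_inf inf_le_left (by rw [inf_comm]; exact h4)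
    · exact inf_le_inf_left _ hLF
  rw [e3] at d1
  have d3 := K.finrank_quotient_add_finrank
  have c1 : (finrank k F : ZMod p) =
      finrank k (F.map K.mkQ) + finrank k (K ⊓ L : Submodule k A) := by
    rw [← d1]; push_cast; ring
  have c2 : (finrank k L : ZMod p) =
      finrank k (L.map K.mkQ) + finrank k (K ⊓ L : Submodule k A) := by
    rw [← d2]; push_cast; ring
  have c3 : (finrank k A : ZMod p) = finrank k (A ⧸ K) + finrank k K := by
    rw [← d3]; push_cast; ring
  rw [c1, c2, c3, hcount]
  ring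

end Pool.Agent.Helper754
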