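import Pool.Agent.Helper754_Equiv.Step2

/-!
The congruence of dimensions for all `p`-subgroups.
-/

namespace Pool.Agent.Helper754

open Function Module

namespace Datum

variable {p : ℕ} [hp : Fact p.Prime] {k : Type*} [Field k] [CharP k p] [PerfectRing k p]
  {G : Type*} [Group G] {V V' : Type*}
  [AddCommGroup V] [Module k V] [AddCommGroup V'] [Module k V']
  [FiniteDimensional k V] [FiniteDimensional k V']
  (D : Datum p k G V V') (H : Subgroup G) {g : G}

theorem finrank_comap_subtype {k : Type*} [Field k] {V : Type*} [AddCommGroup V] [Module k V]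
    {S A : Submodule k V} (h : S ≤ A) :
    finrank k (S.comap A.subtype) = finrank k S :=
  (Submodule.comapSubtypeEquivOfLe h).finrank_eq

theorem fix_mono {k : Type*} [Field k] {G : Type*} [Group G] {V : Type*} [AddCommGroup V]
    [Module k V] (ρ : Representation k G V) {H K : Subgroup G} (h : H ≤ K) :
    fix ρ K ≤ fix ρ H := fun _ hv g hg => hv g (h hg)

/-- One step of the descent. -/
theorem step (hθ : Bijective D.θ) (hg : g ∈ Subgroup.normalizer (H : Set G))
    (hgp : g ^ p ∈ H) :
    (finrank k (fix D.ρ (H ⊔ Subgroup.zpowers g)) : ZMod p) -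
      finrank k (D.neg (H ⊔ Subgroup.zpowers g)) =
    finrank k (fix D.ρ H) - finrank k (D.neg H) := by
  set H1 := H ⊔ Subgroup.zpowers g with hH1
  set A := fix D.ρ H with hA
  have hFA : fix D.ρ H1 ≤ A := fix_mono D.ρ le_sup_left
  have hLA : D.neg H1 ≤ A := fun v hv => hFA hv.1
  have hKA : D.neg H ≤ A := fun v hv => hv.1
  let γ : Module.End k A := (D.ρ g).restrict (fun v hv => fix_conj D.ρ H hg hv)
  have hγ : ∀ x : A, (γ x : V) = D.ρ g x := fun x => rfl
  have hγpow : ∀ (n : ℕ) (x : A), ((γ ^ n) x : V) = D.ρ (g ^ n) x := by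
    intro n
    induction n with
    | zero => intro x; simp
    | succ n ih =>
      intro x
      rw [pow_succ', Module.End.mul_apply, hγ, ih, pow_succ', map_mul, Module.End.mul_apply]
  have hγsum : ∀ x : A, (((∑ j ∈ Finset.range p, γ ^ j) x : A) : V) = D.tr g x := by
    intro x
    rw [LinearMap.sum_apply, AddSubmonoidClass.coe_finset_sum, tr_apply]
    exact Finset.sum_congr rfl (fun j _ => hγpow j x)
  have h := count_step (p := p) γ ((D.neg H).comap A.subtype) ((fix D.ρ H1).comap A.subtype)
    ((D.neg H1).comap A.subtype) ?_ ?_ ?_ ?_ ?_ ?_ ?_ ?_ ?_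
  · rw [finrank_comap_subtype hFA, finrank_comap_subtype hLA, finrank_comap_subtype hKA] at h
    exact h
  · ext x
    rw [hγpow, Module.End.one_apply]
    exact x.2 _ hgp
  · intro x hx
    exact D.neg_conj H hg hx
  · intro x hx
    apply Subtype.ext
    exact ((mem_fix_sup D.ρ H g x.1).1 hx).2
  · intro u hu
    obtain ⟨v, hv, hvu⟩ := D.C1 H hθ.1 hg hgp u.2 hu
    exact ⟨⟨v, hFA hv⟩, hv, hvu⟩
  · intro v hv
    exact hv.1
  · intro x
    change (((∑ j ∈ Finset.range p, γ ^ j) x : A) : V) ∈ D.neg H1
    rw [hγsum]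
    exact D.tr_neg H hg hgp x.2
  · intro v hv
    obtain ⟨x, hx, hvx⟩ := D.C2b H hθ hg hgp hv
    refine ⟨⟨x, hx⟩, ?_⟩
    change (v : V) - (((∑ j ∈ Finset.range p, γ ^ j) ⟨x, hx⟩ : A) : V) ∈ D.neg H
    rw [hγsum]
    exact hvx
  · rintro v ⟨hv1, hv2⟩
    exact ⟨hv1, fun z hz => hv2.2 z (fix_mono D.ρ' le_sup_left hz)⟩
  · intro v hv u hvu
    refine ⟨hv, fun z hz => ?_⟩
    have h1 : D.B z ((v : V) - (D.ρ g u - u)) = 0 :=
      hvu.2 z (fix_mono D.ρ' le_sup_left hz)
    have hz2 := (mem_fix_sup D.ρ' H g z).1 hz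
    have h2 : D.B z (D.ρ g u) = D.B z u := by
      conv_lhs => rw [← hz2.2]
      exact D.inv _ _ _
    rw [map_sub, map_sub, h2, sub_self, sub_zero] at h1
    exact h1

theorem fix_bot {k : Type*} [Field k] {G : Type*} [Group G] {V : Type*} [AddCommGroup V]
    [Module k V] (ρ : Representation k G V) : fix ρ (⊥ : Subgroup G) = ⊤ := by
  rw [eq_top_iff]
  intro v _ h hh
  rw [Subgroup.mem_bot] at hh
  rw [hh, map_one, Module.End.one_apply]

theorem neg_bot : D.neg (⊥ : Subgroup G) = ⊥ := by
  rw [eq_bot_iff]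
  intro v hv
  rw [Submodule.mem_bot]
  apply D.sepR
  intro a
  apply hv.2
  rw [fix_bot]
  exact Submodule.mem_top

/-- Congruence for all `p`-subgroups. -/
theorem congr_all [Finite G] (hθ : Bijective D.θ) :
    ∀ (n : ℕ) (H : Subgroup G), Nat.card H = p ^ n →
    (finrank k (fix D.ρ H) : ZMod p) - finrank k (D.neg H) = finrank k V := by
  intro n
  induction n with
  | zero =>
    intro H hH
    have : H = ⊥ := Subgroup.card_eq_one.1 (by simpa using hH)
    subst this
    rw [fix_bot, neg_bot]
    simp
  | succ n ih =>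
    intro H hH
    obtain ⟨K, hK⟩ := Sylow.exists_subgroup_card_pow_prime p (G := H) (n := n)
      (by rw [hH]; exact pow_dvd_pow p (Nat.le_succ n))
    have hidx : K.index = p := by
      have h1 := K.card_mul_index
      rw [hK, hH, pow_succ] at h1
      exact Nat.eq_of_mul_eq_mul_left (pow_pos hp.out.pos n) h1
    have hKn : K.Normal := by
      apply Subgroup.normal_of_index_eq_minFac_card
      rw [hidx, hH, Nat.Prime.pow_minFac hp.out (Nat.succ_ne_zero n)]
    obtain ⟨g, hgK⟩ : ∃ g : H, g ∉ K := by
      by_contra hcon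
      push_neg at hcon
      have : K = ⊤ := eq_top_iff.2 (fun g _ => hcon g)
      rw [this, Subgroup.index_top] at hidx
      exact hp.out.one_lt.ne hidx
    have hgp : g ^ p ∈ K := by
      have := Subgroup.pow_index_mem K g
      rwa [hidx] at this
    have hmap : Nat.card (K.map H.subtype) = p ^ n := by
      rw [Subgroup.card_map_of_injective H.subtype_injective, hK]
    have hnorm : (g : G) ∈ Subgroup.normalizer ((K.map H.subtype : Subgroup G) : Set G) := by
      rw [Subgroup.mem_normalizer_iff]
      intro x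
      constructor
      · rintro ⟨y, hy, rfl⟩
        exact ⟨g * y * g⁻¹, hKn.conj_mem y hy g, rfl⟩
      · rintro ⟨y, hy, hyx⟩
        refine ⟨g⁻¹ * y * g, ?_, ?_⟩
        · have := hKn.conj_mem y hy g⁻¹
          simpa using this
        · change ((g⁻¹ : H) : G) * (y : G) * (g : G) = x
          have hyx' : (y : G) = g * x * g⁻¹ := hyx
          rw [hyx']
          push_cast
          group
    have hgp' : (g : G) ^ p ∈ K.map H.subtype := ⟨g ^ p, hgp, rfl⟩
    have hsup : K.map H.subtype ⊔ Subgroup.zpowers (g : G) = H := by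
      have h1 : K ⊔ Subgroup.zpowers g = ⊤ := by
        have hlt : K < K ⊔ Subgroup.zpowers g := by
          refine lt_of_le_of_ne le_sup_left (fun h => hgK ?_)
          rw [h]
          exact Subgroup.mem_sup_right (Subgroup.mem_zpowers g)
        have hdvd : (K ⊔ Subgroup.zpowers g).index ∣ p := by
          rw [← hidx]
          exact Subgroup.index_dvd_of_le le_sup_left
        rcases (Nat.dvd_prime hp.out).1 hdvd with h | h
        · exact Subgroup.index_eq_one.1 h
        · exfalso
          have hcK := K.card_mul_index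
          have hcL := (K ⊔ Subgroup.zpowers g).card_mul_index
          rw [hidx] at hcK
          rw [h] at hcL
          have hcard : Nat.card K = Nat.card (K ⊔ Subgroup.zpowers g : Subgroup H) :=
            Nat.eq_of_mul_eq_mul_right hp.out.pos (hcK.trans hcL.symm)
          exact hlt.ne (Subgroup.eq_of_le_of_card_ge le_sup_left hcard.ge)
      have h2 := congrArg (Subgroup.map H.subtype) h1
      rw [Subgroup.map_sup, MonoidHom.map_zpowers, ← MonoidHom.range_eq_map,
        Subgroup.range_subtype] at h2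
      exact h2
    have := D.step (K.map H.subtype) hθ hnorm hgp'
    rw [hsup, ih _ hmap] at this
    exact this

/-- If `θ` is bijective and `p` does not divide the dimension, the pairing of the fixed spaces
is nonzero. -/
theorem exists_fixed_pair [Finite G] (hG : IsPGroup p G) (hθ : Bijective D.θ)
    (hdim : (finrank k V : ZMod p) ≠ 0) :
    ∃ v a, (∀ g, D.ρ g v = v) ∧ (∀ g, D.ρ' g a = a) ∧ D.B a v ≠ 0 := by
  by_contra hcon
  push_neg at hcon
  obtain ⟨n, hn⟩ := IsPGroup.iff_card.1 hG
  have h := D.congr_all hθ n ⊤ (by rw [Subgroup.card_top, hn])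
  have : D.neg ⊤ = fix D.ρ ⊤ := by
    apply le_antisymm
    · exact fun v hv => hv.1
    · intro v hv
      exact ⟨hv, fun z hz => hcon v z (fun g => hv g (Subgroup.mem_top g))
        (fun g => hz g (Subgroup.mem_top g))⟩
  rw [this, sub_self] at h
  exact hdim h.symm

end Datum

end Pool.Agent.Helper754
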