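import Mathlib

/-!
Power sums in characteristic `p` and the resulting identity for multilinear maps.
-/

namespace Pool.Agent.Helper754

open Function

theorem sum_range_eq {p : ℕ} [hp : Fact p.Prime] (f : ZMod p → ZMod p) :
    ∑ j ∈ Finset.range p, f (j : ZMod p) = ∑ a : ZMod p, f a := by
  symm
  refine Finset.sum_bij' (fun a _ => a.val) (fun j _ => (j : ZMod p)) ?_ ?_ ?_ ?_ ?_
  · intro a _
    exact Finset.mem_range.2 (ZMod.val_lt a)
  · intro j _
    exact Finset.mem_univ _
  · intro a _
    exact ZMod.natCast_zmod_val a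
  · intro j hj
    exact ZMod.val_cast_of_lt (Finset.mem_range.1 hj)
  · intro a _
    rw [ZMod.natCast_zmod_val]

theorem sum_pow_lt {p : ℕ} [hp : Fact p.Prime] {k : Type*} [Field k] [CharP k p] (s : ℕ)
    (hs : s < p - 1) : ∑ j ∈ Finset.range p, (j : k) ^ s = 0 := by
  have h1 := FiniteField.sum_pow_lt_card_sub_one (ZMod p) s (by rwa [ZMod.card])
  have h2 := sum_range_eq (p := p) (fun a => a ^ s)
  rw [h1] at h2
  have h3 := congrArg (ZMod.castHom (dvd_refl p) k) h2
  rw [map_sum, map_zero] at h3
  rw [← h3]
  refine Finset.sum_congr rfl (fun j _ => ?_)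
  rw [map_pow, map_natCast]

theorem sum_pow_eq {p : ℕ} [hp : Fact p.Prime] {k : Type*} [Field k] [CharP k p] :
    ∑ j ∈ Finset.range p, (j : k) ^ (p - 1) = -1 := by
  have h1 : ∑ a : ZMod p, a ^ (p - 1) = -1 := by
    have e : ∀ a : ZMod p, a ^ (p - 1) = 1 - (if a = 0 then 1 else 0) := by
      intro a
      by_cases ha : a = 0
      · have : p - 1 ≠ 0 := by have := hp.out.two_le; omega
        simp [ha, this]
      · rw [ZMod.pow_card_sub_one_eq_one ha]
        simp [ha]
    rw [Finset.sum_congr rfl (fun a _ => e a), Finset.sum_sub_distrib]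
    simp
  have h2 := sum_range_eq (p := p) (fun a => a ^ (p - 1))
  rw [h1] at h2
  have h3 := congrArg (ZMod.castHom (dvd_refl p) k) h2
  rw [map_sum, map_neg, map_one] at h3
  rw [← h3]
  refine Finset.sum_congr rfl (fun j _ => ?_)
  rw [map_pow, map_natCast]

theorem power_identity {p : ℕ} [hp : Fact p.Prime] {k : Type*} [Field k] [CharP k p]
    {V : Type*} [AddCommGroup V] [Module k V]
    (Φ : MultilinearMap k (fun _ : ZMod p => V) k) (u v : V) :
    ∑ j ∈ Finset.range p, Φ (update (fun _ => u + (j : k) • v) 0 v) = - Φ (fun _ => v) := by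
  classical
  let m : k → ZMod p → V := fun c i => (if i = 0 then (1 : k) else c) • v
  let m' : ZMod p → V := fun i => if i = 0 then 0 else u
  have hsplit : ∀ c : k, update (fun _ => u + c • v) 0 v = m c + m' := by
    intro c
    funext i
    by_cases hi : i = 0
    · subst hi
      simp [m, m']
    · simp [m, m', hi, add_comm]
  have hterm : ∀ (s : Finset (ZMod p)) (c : k), Φ (s.piecewise (m c) m') =
      (∏ i ∈ s, (if i = 0 then (1 : k) else c)) * Φ (s.piecewise (fun _ => v) m') := by
    intro s c
    have h := Φ.map_piecewise_smul (fun i => if i = 0 then (1 : k) else c)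
      (s.piecewise (fun _ => v) m') s
    rw [smul_eq_mul] at h
    rw [← h]
    congr 1
    funext i
    by_cases hi : i ∈ s
    · rw [Finset.piecewise_eq_of_mem _ _ _ hi, Finset.piecewise_eq_of_mem _ _ _ hi,
        Finset.piecewise_eq_of_mem _ _ _ hi]
    · rw [Finset.piecewise_eq_of_notMem _ _ _ hi, Finset.piecewise_eq_of_notMem _ _ _ hi,
        Finset.piecewise_eq_of_notMem _ _ _ hi]
  have hprod : ∀ (s : Finset (ZMod p)) (c : k), (0 : ZMod p) ∈ s →
      (∏ i ∈ s, (if i = 0 then (1 : k) else c)) = c ^ (s.card - 1) := by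
    intro s c h0
    rw [← Finset.mul_prod_erase s _ h0, if_pos rfl, one_mul,
      Finset.prod_congr rfl (fun i hi => if_neg (Finset.ne_of_mem_erase hi)),
      Finset.prod_const, Finset.card_erase_of_mem h0]
  have hzero : ∀ s : Finset (ZMod p), (0 : ZMod p) ∉ s →
      Φ (s.piecewise (fun _ => v) m') = 0 := by
    intro s h0
    apply Φ.map_coord_zero 0
    rw [Finset.piecewise_eq_of_notMem _ _ _ h0]
    simp [m']
  calc ∑ j ∈ Finset.range p, Φ (update (fun _ => u + (j : k) • v) 0 v)
      = ∑ j ∈ Finset.range p, ∑ s : Finset (ZMod p),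
          (∏ i ∈ s, (if i = 0 then (1 : k) else (j : k))) *
            Φ (s.piecewise (fun _ => v) m') := by
        refine Finset.sum_congr rfl (fun j _ => ?_)
        rw [hsplit, Φ.map_add_univ]
        exact Finset.sum_congr rfl (fun s _ => hterm s _)
    _ = ∑ s : Finset (ZMod p), ∑ j ∈ Finset.range p,
          (∏ i ∈ s, (if i = 0 then (1 : k) else (j : k))) *
            Φ (s.piecewise (fun _ => v) m') := Finset.sum_comm
    _ = ∑ s : Finset (ZMod p), (if s = Finset.univ then - Φ (fun _ => v) else 0) := by
        refine Finset.sum_congr rfl (fun s _ => ?_)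
        by_cases h0 : (0 : ZMod p) ∈ s
        · rw [← Finset.sum_mul, Finset.sum_congr rfl (fun (j : ℕ) _ => hprod s (j : k) h0)]
          by_cases hs : s = Finset.univ
          · rw [if_pos hs, hs, Finset.card_univ, ZMod.card, sum_pow_eq, neg_one_mul,
              Finset.piecewise_univ]
          · rw [if_neg hs, sum_pow_lt, zero_mul]
            have h1 : s.card < p := by
              have := Finset.card_lt_card (Finset.ssubset_univ_iff.2 hs)
              rwa [Finset.card_univ, ZMod.card] at this
            have h2 : 0 < s.card := Finset.card_pos.2 ⟨0, h0⟩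
            omega
        · have hs : s ≠ Finset.univ := by
            rintro rfl
            exact h0 (Finset.mem_univ _)
          rw [if_neg hs, hzero s h0]
          simp
    _ = - Φ (fun _ => v) := by simp

end Pool.Agent.Helper754
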