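import Pool.Agent.Helper754_Equiv.Datum
import Pool.Agent.Helper754_Equiv.LinAlg

/-!
The descent step from a subgroup `H` to `H ⊔ ⟨g⟩` with `g` normalising `H` and `g ^ p ∈ H`.
-/

namespace Pool.Agent.Helper754

open Function Module

/-- An injective endomorphism preserving a subspace is onto on it. -/
theorem exists_preimage {k : Type*} [Field k] {V : Type*} [AddCommGroup V] [Module k V]
    [FiniteDimensional k V] (f : V →ₗ[k] V) (hf : Injective f) (S : Submodule k V)
    (hS : ∀ s ∈ S, f s ∈ S) {s : V} (hs : s ∈ S) : ∃ t ∈ S, f t = s := by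
  have h1 : Injective (f.restrict hS) := by
    intro a b hab
    apply Subtype.ext
    apply hf
    have := congrArg Subtype.val hab
    simpa using this
  have h2 := LinearMap.injective_iff_surjective.1 h1
  obtain ⟨t, ht⟩ := h2 ⟨s, hs⟩
  refine ⟨t.1, t.2, ?_⟩
  have := congrArg Subtype.val ht
  simpa using this

/-- Membership in the fixed space of `H ⊔ ⟨g⟩`. -/
theorem mem_fix_sup {k : Type*} [Field k] {G : Type*} [Group G] {V : Type*} [AddCommGroup V]
    [Module k V] (ρ : Representation k G V) (H : Subgroup G) (g : G) (v : V) :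
    v ∈ Datum.fix ρ (H ⊔ Subgroup.zpowers g) ↔ v ∈ Datum.fix ρ H ∧ ρ g v = v := by
  let S : Subgroup G :=
    { carrier := {h | ρ h v = v}
      mul_mem' := fun {a b} ha hb => by
        change ρ (a * b) v = v
        have ha' : ρ a v = v := ha
        have hb' : ρ b v = v := hb
        rw [map_mul, Module.End.mul_apply, hb', ha']
      one_mem' := by
        change ρ 1 v = v
        rw [map_one, Module.End.one_apply]
      inv_mem' := fun {a} ha => by
        change ρ a⁻¹ v = v
        have ha' : ρ a v = v := ha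
        conv_lhs => rw [← ha']
        rw [← Module.End.mul_apply, ← map_mul, inv_mul_cancel, map_one, Module.End.one_apply] }
  have h1 : ∀ K : Subgroup G, v ∈ Datum.fix ρ K ↔ K ≤ S := fun K => Iff.rfl
  rw [h1, h1, sup_le_iff, Subgroup.zpowers_le]
  exact Iff.rfl

theorem fix_conj {k : Type*} [Field k] {G : Type*} [Group G] {V : Type*} [AddCommGroup V]
    [Module k V] (ρ : Representation k G V) (H : Subgroup G) {g : G}
    (hg : g ∈ Subgroup.normalizer (H : Set G)) {v : V} (hv : v ∈ Datum.fix ρ H) :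
    ρ g v ∈ Datum.fix ρ H := by
  intro h hh
  have h2 : g⁻¹ * h * g ∈ H := by
    have := (Subgroup.mem_normalizer_iff.1 (inv_mem hg) h).1 hh
    simpa using this
  have e : h * g = g * (g⁻¹ * h * g) := by group
  rw [← Module.End.mul_apply, ← map_mul, e, map_mul, Module.End.mul_apply, hv _ h2]

theorem fix_pow_congr {k : Type*} [Field k] {G : Type*} [Group G] {V : Type*} [AddCommGroup V]
    [Module k V] (ρ : Representation k G V) (H : Subgroup G) {g : G} {p : ℕ} (hgp : g ^ p ∈ H)
    {v : V} (hv : v ∈ Datum.fix ρ H) {m n : ℕ} (hmn : m ≡ n [MOD p]) :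
    ρ (g ^ m) v = ρ (g ^ n) v := by
  have key : ∀ q r : ℕ, ρ (g ^ (p * q + r)) v = ρ (g ^ r) v := by
    intro q r
    rw [add_comm, pow_add, map_mul, Module.End.mul_apply, pow_mul, hv _ (pow_mem hgp q)]
  rw [← Nat.div_add_mod m p, ← Nat.div_add_mod n p, key, key]
  have : m % p = n % p := hmn
  rw [this]

namespace Datum

section

variable {p : ℕ} {k : Type*} [Field k] {G : Type*} [Group G] {V V' : Type*}
  [AddCommGroup V] [Module k V] [AddCommGroup V'] [Module k V']
  (D : Datum p k G V V') (H : Subgroup G) {g : G}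

theorem neg_conj (hg : g ∈ Subgroup.normalizer (H : Set G)) {v : V} (hv : v ∈ D.neg H) :
    D.ρ g v ∈ D.neg H := by
  refine ⟨fix_conj D.ρ H hg hv.1, fun z hz => ?_⟩
  rw [← D.inv g⁻¹ z (D.ρ g v), ← Module.End.mul_apply (D.ρ g⁻¹), ← map_mul, inv_mul_cancel,
    map_one, Module.End.one_apply]
  exact hv.2 _ (fix_conj D.ρ' H (inv_mem hg) hz)

/-- Functionals on fixed vectors modulo negligible ones come from fixed vectors of `V'`. -/
theorem exists_repr [FiniteDimensional k V] [FiniteDimensional k V'] (f : V →ₗ[k] k)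
    (hf : ∀ v ∈ D.neg H, f v = 0) :
    ∃ y ∈ fix D.ρ' H, ∀ v ∈ fix D.ρ H, D.B y v = f v := by
  let A := fix D.ρ H
  let T : V' →ₗ[k] Module.Dual k A :=
    { toFun := fun y => (D.B y).comp A.subtype
      map_add' := fun a b => by ext; simp
      map_smul' := fun c a => by ext; simp }
  let Y : Submodule k (Module.Dual k A) := (fix D.ρ' H).map T
  have hfY : f.comp A.subtype ∈ Y := by
    rw [← Subspace.dualCoannihilator_dualAnnihilator_eq (W := Y)]
    rw [Submodule.mem_dualAnnihilator]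
    intro w hw
    rw [Submodule.mem_dualCoannihilator] at hw
    change f w.1 = 0
    apply hf
    refine ⟨w.2, fun z hz => ?_⟩
    exact hw (T z) ⟨z, hz, rfl⟩
  obtain ⟨y, hy, hyf⟩ := hfY
  refine ⟨y, hy, fun v hv => ?_⟩
  have := LinearMap.congr_fun hyf ⟨v, hv⟩
  exact this

theorem mem_of_forall [FiniteDimensional k V] [FiniteDimensional k V'] (S : Submodule k V)
    (hKS : D.neg H ≤ S) (hSA : S ≤ fix D.ρ H) {v : V} (hv : v ∈ fix D.ρ H)
    (h : ∀ y ∈ fix D.ρ' H, (∀ s ∈ S, D.B y s = 0) → D.B y v = 0) : v ∈ S := by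
  by_contra hvS
  obtain ⟨f, hf, hfS⟩ := Submodule.exists_le_ker_of_notMem hvS
  obtain ⟨y, hy, hyf⟩ := D.exists_repr H f (fun w hw => by
    have := hfS (hKS hw)
    simpa using this)
  apply hf
  rw [← hyf v hv]
  apply h y hy
  intro s hs
  rw [hyf s (hSA hs)]
  have := hfS hs
  simpa using this

end

variable {p : ℕ} [hp : Fact p.Prime] {k : Type*} [Field k] [CharP k p] [PerfectRing k p]
  {G : Type*} [Group G] {V V' : Type*}
  [AddCommGroup V] [Module k V] [AddCommGroup V'] [Module k V']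
  (D : Datum p k G V V') (H : Subgroup G) {g : G}

theorem θ_fix {v : V} (hv : v ∈ fix D.ρ H) : D.θ v ∈ fix D.ρ H := by
  intro h hh
  rw [← D.θ_comm, hv h hh]

theorem θ_neg {v : V} (hv : v ∈ D.neg H) : D.θ v ∈ D.neg H := by
  refine ⟨D.θ_fix H hv.1, fun z hz => ?_⟩
  rw [← D.θ_adj]
  exact hv.2 _ (D.swap.θ_fix H hz)

/-- The twisted power vector is congruent to `θ x`. -/
theorem C1_aux (hg : g ∈ Subgroup.normalizer (H : Set G)) (hgp : g ^ p ∈ H) {x : V}
    (hx : x ∈ fix D.ρ H) (hgx : D.ρ g x - x ∈ D.neg H) :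
    ∃ v ∈ fix D.ρ (H ⊔ Subgroup.zpowers g), v - D.θ x ∈ D.neg H := by
  have hpow : ∀ n : ℕ, D.ρ (g ^ n) x ∈ fix D.ρ H := fun n => fix_conj D.ρ H (pow_mem hg n) hx
  have hdiff : ∀ n : ℕ, D.ρ (g ^ n) x - x ∈ D.neg H := by
    intro n
    induction n with
    | zero => simp
    | succ n ih =>
      have e : D.ρ (g ^ (n + 1)) x - x = D.ρ g (D.ρ (g ^ n) x - x) + (D.ρ g x - x) := by
        rw [pow_succ', map_mul, Module.End.mul_apply, map_sub]
        abel
      rw [e]
      exact Submodule.add_mem _ (D.neg_conj H hg ih) hgx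
  refine ⟨D.Rv (fun i => D.ρ (g ^ i.val) x), ?_, ?_⟩
  · rw [mem_fix_sup]
    constructor
    · intro h hh
      rw [← D.Rv_equiv]
      congr 1
      funext i
      exact hpow i.val h hh
    · rw [← D.Rv_equiv]
      conv_rhs => rw [← D.Rv_rot]
      congr 1
      funext i
      rw [← Module.End.mul_apply, ← map_mul, ← pow_succ']
      apply fix_pow_congr D.ρ H hgp hx
      rw [← ZMod.natCast_eq_natCast_iff]
      push_cast
      rw [ZMod.natCast_zmod_val, ZMod.natCast_zmod_val]
  · have hfix : D.Rv (fun i => D.ρ (g ^ i.val) x) ∈ fix D.ρ H := by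
      intro h hh
      rw [← D.Rv_equiv]
      congr 1
      funext i
      exact hpow i.val h hh
    refine ⟨Submodule.sub_mem _ hfix (D.θ_fix H hx), fun z hz => ?_⟩
    rw [map_sub, sub_eq_zero]
    apply pow_inj (p := p)
    rw [D.Rv_spec, D.θ_spec]
    exact D.key_congr H _ _ _ (fun _ => hz) (fun i => hpow i.val) (fun _ => hx)
      (fun i => hdiff i.val)

theorem C1 [FiniteDimensional k V] (hθ : Injective D.θ)
    (hg : g ∈ Subgroup.normalizer (H : Set G)) (hgp : g ^ p ∈ H) {u : V}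
    (hu : u ∈ fix D.ρ H) (hgu : D.ρ g u - u ∈ D.neg H) :
    ∃ v ∈ fix D.ρ (H ⊔ Subgroup.zpowers g), v - u ∈ D.neg H := by
  obtain ⟨x, hx, rfl⟩ := exists_preimage D.θ hθ _ (fun s hs => D.θ_fix H hs) hu
  apply D.C1_aux H hg hgp hx
  rw [← D.θ_comm, ← map_sub] at hgu
  obtain ⟨w, hw, hw2⟩ := exists_preimage D.θ hθ _ (fun s hs => D.θ_neg H hs) hgu
  rw [← hθ hw2]
  exact hw

theorem swap_θ_injective (hθ : Surjective D.θ) : Injective D.swap.θ := by
  rw [← LinearMap.ker_eq_bot, LinearMap.ker_eq_bot']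
  intro a ha
  apply D.sepL
  intro v
  obtain ⟨w, rfl⟩ := hθ v
  rw [← D.θ_adj, ha, map_zero, LinearMap.zero_apply]

end Datum

end Pool.Agent.Helper754
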