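import Pool.Agent.Helper754_Equiv.Step
import Pool.Agent.Helper754_Equiv.Powers

/-!
The descent step, second part, and the resulting congruence of dimensions.
-/

namespace Pool.Agent.Helper754

open Function Module

namespace Datum

variable {p : ℕ} [hp : Fact p.Prime] {k : Type*} [Field k] [CharP k p] [PerfectRing k p]
  {G : Type*} [Group G] {V V' : Type*}
  [AddCommGroup V] [Module k V] [AddCommGroup V'] [Module k V']
  [FiniteDimensional k V] [FiniteDimensional k V']
  (D : Datum p k G V V') (H : Subgroup G) {g : G}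

/-- The sum of the powers of `g`. -/
def tr (g : G) : V →ₗ[k] V := ∑ j ∈ Finset.range p, D.ρ (g ^ j)

theorem tr_apply (v : V) : D.tr g v = ∑ j ∈ Finset.range p, D.ρ (g ^ j) v := by
  rw [tr, LinearMap.sum_apply]

theorem tr_fix (hg : g ∈ Subgroup.normalizer (H : Set G)) {v : V} (hv : v ∈ fix D.ρ H) :
    D.tr g v ∈ fix D.ρ H := by
  rw [tr_apply]
  exact Submodule.sum_mem _ (fun j _ => fix_conj D.ρ H (pow_mem hg j) hv)

theorem θ_tr (v : V) : D.θ (D.tr g v) = D.tr g (D.θ v) := by
  rw [tr_apply, tr_apply, map_sum]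
  exact Finset.sum_congr rfl (fun j _ => D.θ_comm _ _)

/-- Traces are fixed and negligible. -/
theorem tr_neg (hg : g ∈ Subgroup.normalizer (H : Set G)) (hgp : g ^ p ∈ H) {v : V}
    (hv : v ∈ fix D.ρ H) : D.tr g v ∈ D.neg (H ⊔ Subgroup.zpowers g) := by
  constructor
  · rw [mem_fix_sup]
    refine ⟨D.tr_fix H hg hv, ?_⟩
    rw [tr_apply, map_sum]
    have e1 : ∀ j, D.ρ g (D.ρ (g ^ j) v) = D.ρ (g ^ (j + 1)) v := by
      intro j
      rw [pow_succ', map_mul, Module.End.mul_apply]
    rw [Finset.sum_congr rfl (fun j _ => e1 j)]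
    have h1 := Finset.sum_range_succ (fun j => D.ρ (g ^ j) v) p
    have h2 := Finset.sum_range_succ' (fun j => D.ρ (g ^ j) v) p
    have h3 : D.ρ (g ^ p) v = D.ρ (g ^ 0) v :=
      fix_pow_congr D.ρ H hgp hv (by simp [Nat.ModEq])
    rw [h1, h3] at h2
    exact (add_right_cancel h2).symm
  · intro z hz
    rw [tr_apply, map_sum]
    have hzg : D.ρ' g z = z := ((mem_fix_sup D.ρ' H g z).1 hz).2
    have hzj : ∀ j : ℕ, D.ρ' (g ^ j) z = z := by
      intro j
      induction j with
      | zero => simp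
      | succ j ih => rw [pow_succ', map_mul, Module.End.mul_apply, ih, hzg]
    have e1 : ∀ j, D.B z (D.ρ (g ^ j) v) = D.B z v := by
      intro j
      conv_lhs => rw [← hzj j]
      exact D.inv _ _ _
    rw [Finset.sum_congr rfl (fun j _ => e1 j), Finset.sum_const, Finset.card_range,
      nsmul_eq_mul, CharP.cast_eq_zero, zero_mul]

/-- A fixed negligible vector is a difference, modulo negligible vectors for `H`. -/
theorem C2a (hθ : Bijective D.θ) (hg : g ∈ Subgroup.normalizer (H : Set G)) (hgp : g ^ p ∈ H)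
    {v : V} (hv : v ∈ D.neg (H ⊔ Subgroup.zpowers g)) :
    ∃ u ∈ fix D.ρ H, v - (D.ρ g u - u) ∈ D.neg H := by
  have hvfix := (mem_fix_sup D.ρ H g v).1 hv.1
  let f : V →ₗ[k] V := D.ρ g - LinearMap.id
  let S : Submodule k V := D.neg H ⊔ (fix D.ρ H).map f
  have hSA : S ≤ fix D.ρ H := by
    apply sup_le
    · intro w hw
      exact hw.1
    · rintro _ ⟨w, hw, rfl⟩
      exact Submodule.sub_mem _ (fix_conj D.ρ H hg hw) hw
  have hvS : v ∈ S := by
    apply D.mem_of_forall H S le_sup_left hSA hvfix.1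
    intro y hy hyS
    -- `y` is fixed by `g` modulo negligible functionals
    have h1 : D.ρ' g⁻¹ y - y ∈ D.swap.neg H := by
      refine ⟨Submodule.sub_mem _ (fix_conj D.ρ' H (inv_mem hg) hy) hy, fun u hu => ?_⟩
      change D.B (D.ρ' g⁻¹ y - y) u = 0
      rw [map_sub, LinearMap.sub_apply, D.B_inv_left, ← map_sub]
      apply hyS
      exact Submodule.mem_sup_right ⟨u, hu, rfl⟩
    have h2 : D.ρ' g y - y ∈ D.swap.neg H := by
      have h3 := D.swap.neg_conj H hg h1
      change D.ρ' g (D.ρ' g⁻¹ y - y) ∈ D.swap.neg H at h3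
      rw [map_sub, ← Module.End.mul_apply, ← map_mul, mul_inv_cancel, map_one,
        Module.End.one_apply] at h3
      have h4 := Submodule.neg_mem _ h3
      rwa [neg_sub] at h4
    obtain ⟨z, hz, hzy⟩ := D.swap.C1 H (D.swap_θ_injective hθ.2) hg hgp hy h2
    have h5 : D.B (z - y) v = 0 := hzy.2 v hvfix.1
    have h6 : D.B z v = 0 := hv.2 z hz
    rw [map_sub, LinearMap.sub_apply, h6, zero_sub, neg_eq_zero] at h5
    exact h5
  obtain ⟨κ, hκ, w, ⟨u, hu, rfl⟩, hsum⟩ := Submodule.mem_sup.1 hvS
  refine ⟨u, hu, ?_⟩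
  rw [← hsum]
  have : κ + f u - (D.ρ g u - u) = κ := by
    change κ + (D.ρ g u - u) - (D.ρ g u - u) = κ
    abel
  rw [this]
  exact hκ

/-- A fixed negligible vector is a trace, modulo negligible vectors for `H`. -/
theorem C2b (hθ : Bijective D.θ) (hg : g ∈ Subgroup.normalizer (H : Set G)) (hgp : g ^ p ∈ H)
    {v : V} (hv : v ∈ D.neg (H ⊔ Subgroup.zpowers g)) :
    ∃ x ∈ fix D.ρ H, v - D.tr g x ∈ D.neg H := by
  have hvfix := (mem_fix_sup D.ρ H g v).1 hv.1
  obtain ⟨u, hu, huv⟩ := D.C2a H hθ hg hgp hv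
  let S : Submodule k V := D.neg H ⊔ (fix D.ρ H).map (D.tr g)
  have hSA : S ≤ fix D.ρ H := by
    apply sup_le
    · intro w hw
      exact hw.1
    · rintro _ ⟨w, hw, rfl⟩
      exact D.tr_fix H hg hw
  have hθS : ∀ s ∈ S, D.θ s ∈ S := by
    intro s hs
    obtain ⟨κ, hκ, w, ⟨x, hx, rfl⟩, rfl⟩ := Submodule.mem_sup.1 hs
    rw [map_add, D.θ_tr]
    exact Submodule.add_mem _ (Submodule.mem_sup_left (D.θ_neg H hκ))
      (Submodule.mem_sup_right ⟨_, D.θ_fix H hx, rfl⟩)
  have hvS : v ∈ S := by
    apply D.mem_of_forall H S le_sup_left hSA hvfix.1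
    intro y hy hyS
    let Y : Submodule k V' :=
      { carrier := {y | y ∈ fix D.ρ' H ∧ ∀ s ∈ S, D.B y s = 0}
        add_mem' := fun {a b} ha hb => ⟨Submodule.add_mem _ ha.1 hb.1, fun s hs => by
          rw [map_add, LinearMap.add_apply, ha.2 s hs, hb.2 s hs, add_zero]⟩
        zero_mem' := ⟨Submodule.zero_mem _, fun s _ => by simp⟩
        smul_mem' := fun c a ha => ⟨Submodule.smul_mem _ c ha.1, fun s hs => by
          rw [map_smul, LinearMap.smul_apply, ha.2 s hs, smul_zero]⟩ }
    have hYθ : ∀ s ∈ Y, D.swap.θ s ∈ Y := by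
      intro a ha
      refine ⟨D.swap.θ_fix H ha.1, fun s hs => ?_⟩
      rw [D.θ_adj]
      exact ha.2 _ (hθS s hs)
    obtain ⟨y0, hy0, rfl⟩ := exists_preimage D.swap.θ (D.swap_θ_injective hθ.2) Y hYθ
      (s := y) ⟨hy, hyS⟩
    rw [D.θ_adj]
    apply pow_inj (p := p)
    rw [D.θ_spec, zero_pow hp.out.ne_zero]
    -- the identity
    have hid := power_identity (D.R (fun _ => y0)) u v
    -- `g ^ j u ≡ u + j v`
    have hgj : ∀ j : ℕ, D.ρ (g ^ j) v = v := by
      intro j
      induction j with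
      | zero => simp
      | succ j ih => rw [pow_succ', map_mul, Module.End.mul_apply, ih, hvfix.2]
    have hcong : ∀ j : ℕ, (u + (j : k) • v) - D.ρ (g ^ j) u ∈ D.neg H := by
      intro j
      induction j with
      | zero => simp
      | succ j ih =>
        have h1 := D.neg_conj H hg ih
        rw [map_sub, map_add, map_smul, hvfix.2, ← Module.End.mul_apply, ← map_mul,
          ← pow_succ'] at h1
        have e : (u + ((j + 1 : ℕ) : k) • v) - D.ρ (g ^ (j + 1)) u =
            (D.ρ g u + (j : k) • v - D.ρ (g ^ (j + 1)) u) + (v - (D.ρ g u - u)) := by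
          push_cast
          rw [add_smul, one_smul]
          abel
        rw [e]
        exact Submodule.add_mem _ h1 huv
    have hgu : ∀ j : ℕ, D.ρ (g ^ j) u ∈ fix D.ρ H := fun j => fix_conj D.ρ H (pow_mem hg j) hu
    have hterm : ∀ j : ℕ, D.R (fun _ => y0) (update (fun _ => u + (j : k) • v) 0 v) =
        D.L (update (fun _ => u) 0 v) (fun _ => D.ρ' (g ^ j)⁻¹ y0) := by
      intro j
      have e1 : D.R (fun _ => y0) (update (fun _ => u + (j : k) • v) 0 v) =
          D.R (fun _ => y0) (update (fun _ => D.ρ (g ^ j) u) 0 v) := by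
        apply D.key_congr H _ _ _ (fun _ => hy0.1)
        · intro i
          by_cases hi : i = 0
          · subst hi
            rw [update_self]
            exact hvfix.1
          · rw [update_of_ne hi]
            exact Submodule.add_mem _ hu (Submodule.smul_mem _ _ hvfix.1)
        · intro i
          by_cases hi : i = 0
          · subst hi
            rw [update_self]
            exact hvfix.1
          · rw [update_of_ne hi]
            exact hgu j
        · intro i
          by_cases hi : i = 0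
          · subst hi
            rw [update_self, update_self, sub_self]
            exact Submodule.zero_mem _
          · rw [update_of_ne hi, update_of_ne hi]
            exact hcong j
      rw [e1, D.compat, ← D.invR (g ^ j) (fun _ => D.ρ' (g ^ j)⁻¹ y0)]
      congr 1
      · congr 1
        funext i
        rw [← Module.End.mul_apply, ← map_mul, mul_inv_cancel, map_one, Module.End.one_apply]
      · funext i
        by_cases hi : i = 0
        · subst hi
          rw [update_self, update_self, hgj]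
        · rw [update_of_ne hi, update_of_ne hi]
    rw [Finset.sum_congr rfl (fun j _ => hterm j)] at hid
    have hsum : ∑ j ∈ Finset.range p,
        D.L (update (fun _ => u) 0 v) (fun _ => D.ρ' (g ^ j)⁻¹ y0) =
        D.L (update (fun _ => u) 0 v) (fun _ => ∑ j ∈ Finset.range p, D.ρ' (g ^ j)⁻¹ y0) := by
      have h := map_const_sum (D.L (update (fun _ => u) 0 v)) (D.rotL _)
        (fun j : Fin p => D.ρ' (g ^ (j : ℕ))⁻¹ y0)
      rw [Finset.sum_range, Finset.sum_range]
      exact h.symm
    have hneg : ∑ j ∈ Finset.range p, D.ρ' (g ^ j)⁻¹ y0 ∈ D.swap.neg H := by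
      refine ⟨Submodule.sum_mem _
        (fun j _ => fix_conj D.ρ' H (inv_mem (pow_mem hg j)) hy0.1), fun w hw => ?_⟩
      change D.B (∑ j ∈ Finset.range p, D.ρ' (g ^ j)⁻¹ y0) w = 0
      rw [map_sum, LinearMap.sum_apply]
      rw [Finset.sum_congr rfl (fun j _ => D.B_inv_left (g ^ j) y0 w), ← map_sum,
        ← D.tr_apply]
      exact hy0.2 _ (Submodule.mem_sup_right ⟨w, hw, rfl⟩)
    have hzero : D.L (update (fun _ => u) 0 v)
        (fun _ => ∑ j ∈ Finset.range p, D.ρ' (g ^ j)⁻¹ y0) = 0 := by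
      apply D.swap.key H (update (fun _ => u) 0 v) _ _ (fun _ => hneg.1) 0 hneg
      intro i
      by_cases hi : i = 0
      · subst hi
        rw [update_self]
        exact hvfix.1
      · rw [update_of_ne hi]
        exact hu
    rw [hsum, hzero] at hid
    exact neg_eq_zero.1 hid.symm
  obtain ⟨κ, hκ, w, ⟨x, hx, rfl⟩, hsum⟩ := Submodule.mem_sup.1 hvS
  refine ⟨x, hx, ?_⟩
  rw [← hsum, add_sub_cancel_right]
  exact hκ

end Datum

end Pool.Agent.Helper754
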