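import Pool.Agent.Helper754_Equiv.Eigen

/-!
From an invariant functional and an invariant vector of `V^{⊗p} ⊗ W` to a datum.
-/

namespace Pool.Agent.Helper754

open Function Module TensorProduct

section contraction

variable {p : ℕ} {k : Type*} [Field k] {V W : Type*} [AddCommGroup V] [Module k V]
  [AddCommGroup W] [Module k W]

/-- The product functional `x ↦ ∏ y i (x i)` on the tensor power, multilinear in `y`. -/
noncomputable def evalTensor {ι : Type*} [Fintype ι] :
    MultilinearMap k (fun _ : ι => Module.Dual k V) ((⨂[k] _ : ι, V) →ₗ[k] k) :=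
  ((LinearMap.llcomp k (⨂[k] _ : ι, V) (⨂[k] _ : ι, k) k
    (PiTensorProduct.lift (MultilinearMap.mkPiAlgebra k ι k)))).compMultilinearMap
      (PiTensorProduct.mapMultilinear k (fun _ : ι => V) (fun _ : ι => k))

theorem evalTensor_tprod {ι : Type*} [Fintype ι] (y : ι → Module.Dual k V) (x : ι → V) :
    evalTensor y (PiTensorProduct.tprod k x) = ∏ i, y i (x i) := by
  simp [evalTensor]

/-- Contraction of the tensor power factor. -/
noncomputable def contr {ι : Type*} [Fintype ι] (y : ι → Module.Dual k V) :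
    ((⨂[k] _ : ι, V) ⊗[k] W) →ₗ[k] W :=
  (TensorProduct.lid k W).toLinearMap ∘ₗ TensorProduct.map (evalTensor y) LinearMap.id

theorem contr_tmul {ι : Type*} [Fintype ι] (y : ι → Module.Dual k V) (x : ι → V) (w : W) :
    contr y ((PiTensorProduct.tprod k x) ⊗ₜ[k] w) = (∏ i, y i (x i)) • w := by
  simp [contr, evalTensor_tprod]

/-- Contraction is multilinear in the functionals. -/
noncomputable def contrHom {ι : Type*} [Fintype ι] :
    MultilinearMap k (fun _ : ι => Module.Dual k V) (((⨂[k] _ : ι, V) ⊗[k] W) →ₗ[k] W) :=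
  ((LinearMap.llcomp k ((⨂[k] _ : ι, V) ⊗[k] W) (k ⊗[k] W) W
      (TensorProduct.lid k W).toLinearMap) ∘ₗ
    (LinearMap.rTensorHom (R := k) W)).compMultilinearMap evalTensor

theorem contrHom_apply {ι : Type*} [Fintype ι] (y : ι → Module.Dual k V) :
    contrHom (W := W) y = contr y := by
  rfl

/-- Two linear maps on `V^{⊗ι} ⊗ W` agreeing on pure tensors are equal. -/
theorem ext_pure {ι : Type*} {E : Type*} [AddCommGroup E] [Module k E]
    {f g : ((⨂[k] _ : ι, V) ⊗[k] W) →ₗ[k] E}
    (h : ∀ x w, f ((PiTensorProduct.tprod k x) ⊗ₜ[k] w) =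
      g ((PiTensorProduct.tprod k x) ⊗ₜ[k] w)) : f = g := by
  apply TensorProduct.ext
  apply PiTensorProduct.ext
  ext x w
  exact h x w

/-- Expansion of a tensor along a basis of `V`. -/
theorem expand {ι : Type*} [Fintype ι] [DecidableEq ι] {κ : Type*} [Fintype κ]
    [DecidableEq κ] (b : Basis κ k V) (t : (⨂[k] _ : ι, V) ⊗[k] W) :
    t = ∑ u : ι → κ, (PiTensorProduct.tprod k (fun i => b (u i))) ⊗ₜ[k]
      (contr (fun i => b.coord (u i)) t) := by
  have h : (LinearMap.id : ((⨂[k] _ : ι, V) ⊗[k] W) →ₗ[k] _) =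
      ∑ u : ι → κ, (TensorProduct.mk k (⨂[k] _ : ι, V) W
        (PiTensorProduct.tprod k (fun i => b (u i)))) ∘ₗ
          (contr (fun i => b.coord (u i))) := by
    apply ext_pure
    intro x w
    rw [LinearMap.id_apply, LinearMap.sum_apply]
    have h1 : x = fun i => ∑ j, b.coord j (x i) • b j := by
      funext i
      simp
    conv_lhs => rw [h1]
    rw [MultilinearMap.map_sum (PiTensorProduct.tprod k)
      (fun (i : ι) (j : κ) => b.coord j (x i) • b j), TensorProduct.sum_tmul]
    refine Finset.sum_congr rfl (fun u _ => ?_)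
    rw [MultilinearMap.map_smul_univ, LinearMap.comp_apply, contr_tmul, TensorProduct.mk_apply,
      TensorProduct.tmul_smul, TensorProduct.smul_tmul']
  have h2 := LinearMap.congr_fun h t
  rw [LinearMap.id_apply, LinearMap.sum_apply] at h2
  exact h2

end contraction

section datum

variable {p : ℕ} [hp : Fact p.Prime] {k : Type*} [Field k]
  {G : Type*} [Group G] {V W M : Type*} [AddCommGroup V] [Module k V]
  [AddCommGroup W] [Module k W] [AddCommGroup M] [Module k M]

/-- The rotation of the tensor factors. -/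
noncomputable def rotMap (p : ℕ) (k : Type*) [Field k] (V : Type*) [AddCommGroup V] [Module k V]
    (s : ZMod p) : (⨂[k] _ : ZMod p, V) →ₗ[k] (⨂[k] _ : ZMod p, V) :=
  (PiTensorProduct.reindex k (fun _ : ZMod p => V) (Equiv.addRight s)).toLinearMap

theorem rotMap_tprod (s : ZMod p) (x : ZMod p → V) :
    rotMap p k V s (PiTensorProduct.tprod k x) = PiTensorProduct.tprod k (fun i => x (i - s)) := by
  rw [rotMap, LinearEquiv.coe_coe, PiTensorProduct.reindex_tprod]
  congr 1
  funext i
  simp [sub_eq_add_neg]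

theorem rotMap_zero (p : ℕ) [Fact p.Prime] (k : Type*) [Field k] (V : Type*) [AddCommGroup V]
    [Module k V] : rotMap p k V 0 = LinearMap.id := by
  apply PiTensorProduct.ext
  ext x
  rw [LinearMap.compMultilinearMap_apply, rotMap_tprod, LinearMap.compMultilinearMap_apply,
    LinearMap.id_apply]
  congr 1
  funext i
  rw [sub_zero]

theorem map_one_pow {ι : Type*} (k : Type*) [Field k] (V : Type*) [AddCommGroup V] [Module k V] :
    PiTensorProduct.map (fun _ : ι => (1 : V →ₗ[k] V)) = LinearMap.id :=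
  PiTensorProduct.map_id

/-- The datum attached to a direct summand `M` of `V^{⊗p} ⊗ W` with trivial rotation. -/
noncomputable def mkDatum [FiniteDimensional k V] [FiniteDimensional k M] (ρ : Representation k G V)
    (σ : Representation k G W) (μ : Representation k G M)
    (r : ((⨂[k] _ : ZMod p, V) ⊗[k] W) →ₗ[k] M) (j : M →ₗ[k] (⨂[k] _ : ZMod p, V) ⊗[k] W)
    (hr : ∀ g u, r (TensorProduct.map (PiTensorProduct.map (fun _ => ρ g)) (σ g) u) = μ g (r u))
    (hrr : ∀ u, r (TensorProduct.map (rotMap p k V 1) LinearMap.id u) = r u)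
    (hj : ∀ g m, TensorProduct.map (PiTensorProduct.map (fun _ => ρ g)) (σ g) (j m) =
      j (μ g m))
    (hjr : ∀ m, TensorProduct.map (rotMap p k V 1) LinearMap.id (j m) = j m) :
    Datum p k G V (Module.Dual k V) where
  B := LinearMap.id
  ρ := ρ
  ρ' := ρ.dual
  inv := fun g a v => by
    change a (ρ g⁻¹ (ρ g v)) = a v
    rw [← Module.End.mul_apply, ← map_mul, inv_mul_cancel, map_one, Module.End.one_apply]
  sepL := fun a h => LinearMap.ext h
  sepR := fun v h => (Module.forall_dual_apply_eq_zero_iff k v).1 h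
  repr := fun f => repr_of_sep (LinearMap.id : Module.Dual k V →ₗ[k] V →ₗ[k] k).flip
    (fun v h => (Module.forall_dual_apply_eq_zero_iff k v).1 h) (fun a h => LinearMap.ext h) f
  repr' := fun f => ⟨f, fun v => rfl⟩
  R := fun y => ((LinearMap.trace k M) ∘ₗ (LinearMap.lcomp k M (contr y ∘ₗ j)) ∘ₗ
    (LinearMap.llcomp k W ((⨂[k] _ : ZMod p, V) ⊗[k] W) M r) ∘ₗ
    (TensorProduct.mk k (⨂[k] _ : ZMod p, V) W)).compMultilinearMap (PiTensorProduct.tprod k)
  L := fun x => ((LinearMap.trace k M) ∘ₗ (LinearMap.llcomp k M W M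
    (r ∘ₗ (TensorProduct.mk k (⨂[k] _ : ZMod p, V) W (PiTensorProduct.tprod k x)))) ∘ₗ
    (LinearMap.lcomp k W j)).compMultilinearMap contrHom
  compat := fun y x => rfl
  rotR := fun y x => by
    change LinearMap.trace k M ((r ∘ₗ (TensorProduct.mk k (⨂[k] _ : ZMod p, V) W
      (PiTensorProduct.tprod k (fun i => x (i + 1))))) ∘ₗ (contr y ∘ₗ j)) =
      LinearMap.trace k M ((r ∘ₗ (TensorProduct.mk k (⨂[k] _ : ZMod p, V) W
      (PiTensorProduct.tprod k x))) ∘ₗ (contr y ∘ₗ j))
    congr 2
    ext w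
    rw [LinearMap.comp_apply, LinearMap.comp_apply, TensorProduct.mk_apply,
      TensorProduct.mk_apply, ← hrr, TensorProduct.map_tmul, rotMap_tprod]
    simp
  rotL := fun x y => by
    change LinearMap.trace k M ((r ∘ₗ (TensorProduct.mk k (⨂[k] _ : ZMod p, V) W
      (PiTensorProduct.tprod k x))) ∘ₗ (contr (fun i => y (i + 1)) ∘ₗ j)) =
      LinearMap.trace k M ((r ∘ₗ (TensorProduct.mk k (⨂[k] _ : ZMod p, V) W
      (PiTensorProduct.tprod k x))) ∘ₗ (contr y ∘ₗ j))
    congr 2
    have h : (contr (W := W) y) ∘ₗ (TensorProduct.map (rotMap p k V 1) LinearMap.id) =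
        contr (fun i => y (i + 1)) := by
      apply ext_pure
      intro x w
      rw [LinearMap.comp_apply, TensorProduct.map_tmul, rotMap_tprod, contr_tmul, contr_tmul]
      congr 1
      exact (Fintype.prod_equiv (Equiv.addRight (1 : ZMod p)) _ _ (fun i => by simp)).symm
    ext m
    rw [LinearMap.comp_apply, LinearMap.comp_apply]
    conv_rhs => rw [← hjr]
    exact (LinearMap.congr_fun h (j m)).symm
  invR := fun g y x => by
    change LinearMap.trace k M ((r ∘ₗ (TensorProduct.mk k (⨂[k] _ : ZMod p, V) W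
      (PiTensorProduct.tprod k (fun i => ρ g (x i))))) ∘ₗ
        (contr (fun i => ρ.dual g (y i)) ∘ₗ j)) =
      LinearMap.trace k M ((r ∘ₗ (TensorProduct.mk k (⨂[k] _ : ZMod p, V) W
      (PiTensorProduct.tprod k x))) ∘ₗ (contr y ∘ₗ j))
    have h : (contr (W := W) (fun i => ρ.dual g (y i))) ∘ₗ
        (TensorProduct.map (PiTensorProduct.map (fun _ => ρ g)) (σ g)) = (σ g) ∘ₗ contr y := by
      apply ext_pure
      intro x w
      rw [LinearMap.comp_apply, TensorProduct.map_tmul, PiTensorProduct.map_tprod, contr_tmul,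
        LinearMap.comp_apply, contr_tmul, map_smul]
      congr 1
      refine Finset.prod_congr rfl (fun i _ => ?_)
      change y i (ρ g⁻¹ (ρ g (x i))) = y i (x i)
      rw [← Module.End.mul_apply, ← map_mul, inv_mul_cancel, map_one, Module.End.one_apply]
    have hginv : ∀ m, μ g (μ g⁻¹ m) = m := by
      intro m
      rw [← Module.End.mul_apply, ← map_mul, mul_inv_cancel, map_one, Module.End.one_apply]
    have hcomp : (r ∘ₗ (TensorProduct.mk k (⨂[k] _ : ZMod p, V) W
      (PiTensorProduct.tprod k (fun i => ρ g (x i))))) ∘ₗ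
        (contr (fun i => ρ.dual g (y i)) ∘ₗ j) =
        (μ g) ∘ₗ (((r ∘ₗ (TensorProduct.mk k (⨂[k] _ : ZMod p, V) W
          (PiTensorProduct.tprod k x))) ∘ₗ (contr y ∘ₗ j)) ∘ₗ (μ g⁻¹)) := by
      ext m
      simp only [LinearMap.comp_apply, TensorProduct.mk_apply]
      have h2 : contr (fun i => ρ.dual g (y i)) (j m) = σ g (contr y (j (μ g⁻¹ m))) := by
        conv_lhs => rw [← hginv m, ← hj g]
        exact LinearMap.congr_fun h _
      rw [h2, ← hr g, TensorProduct.map_tmul, PiTensorProduct.map_tprod]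
    rw [hcomp, LinearMap.trace_comp_comm']
    congr 1
    ext m
    simp only [LinearMap.comp_apply]
    congr 5
    rw [← Module.End.mul_apply, ← map_mul, inv_mul_cancel, map_one, Module.End.one_apply]

theorem trace_mkDatum [CharP k p] [PerfectRing k p] [FiniteDimensional k V]
    [FiniteDimensional k M]
    (ρ : Representation k G V) (σ : Representation k G W) (μ : Representation k G M)
    (r : ((⨂[k] _ : ZMod p, V) ⊗[k] W) →ₗ[k] M) (j : M →ₗ[k] (⨂[k] _ : ZMod p, V) ⊗[k] W)
    (hr : ∀ g u, r (TensorProduct.map (PiTensorProduct.map (fun _ => ρ g)) (σ g) u) = μ g (r u))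
    (hrr : ∀ u, r (TensorProduct.map (rotMap p k V 1) LinearMap.id u) = r u)
    (hj : ∀ g m, TensorProduct.map (PiTensorProduct.map (fun _ => ρ g)) (σ g) (j m) =
      j (μ g m))
    (hjr : ∀ m, TensorProduct.map (rotMap p k V 1) LinearMap.id (j m) = j m) :
    (LinearMap.trace k V (mkDatum ρ σ μ r j hr hrr hj hjr).θ) ^ p =
      LinearMap.trace k M (r ∘ₗ j) := by
  classical
  set D := mkDatum ρ σ μ r j hr hrr hj hjr with hD
  let b := Module.finBasis k V
  have h1 : LinearMap.trace k M (r ∘ₗ j) = ∑ u : ZMod p → Fin (finrank k V),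
      D.R (fun i => b.coord (u i)) (fun i => b (u i)) := by
    have h0 : r ∘ₗ j = ∑ u : ZMod p → Fin (finrank k V),
        (r ∘ₗ (TensorProduct.mk k (⨂[k] _ : ZMod p, V) W
          (PiTensorProduct.tprod k (fun i => b (u i))))) ∘ₗ
            (contr (fun i => b.coord (u i)) ∘ₗ j) := by
      ext m
      rw [LinearMap.comp_apply, LinearMap.sum_apply]
      conv_lhs => rw [expand b (j m), map_sum]
      rfl
    rw [h0, map_sum]
    rfl
  rw [h1, sum_rot (fun u : ZMod p → Fin (finrank k V) =>
    D.R (fun i => b.coord (u i)) (fun i => b (u i))) (fun u => by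
      have e1 := D.rotR (fun i => b.coord (u (i + 1))) (fun i => b (u i))
      have e2 := D.rotL (fun i => b (u i)) (fun i => b.coord (u i))
      rw [D.compat, D.compat] at e2
      exact e1.trans e2)]
  have h2 : ∀ i, D.R (fun _ => b.coord i) (fun _ => b i) = (b.coord i (D.θ (b i))) ^ p :=
    fun i => (D.θ_spec (b.coord i) (b i)).symm
  rw [Finset.sum_congr rfl (fun i _ => h2 i), ← sum_pow_char]
  congr 1
  rw [LinearMap.trace_eq_matrix_trace k b, Matrix.trace]
  refine Finset.sum_congr rfl (fun i _ => ?_)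
  rw [Matrix.diag_apply, LinearMap.toMatrix_apply]
  rfl

/-- If `M`, of dimension prime to `p` and with trivial rotation, is a direct summand of
`V^{⊗p} ⊗ W`, then `V` has an invariant vector and an invariant functional which do not pair to
zero. -/
theorem fixed_of_tensor [CharP k p] [IsAlgClosed k] [FiniteDimensional k V] [Finite G]
    [FiniteDimensional k M]
    (hG : IsPGroup p G) (ρ : Representation k G V) (σ : Representation k G W)
    (μ : Representation k G M)
    (r : ((⨂[k] _ : ZMod p, V) ⊗[k] W) →ₗ[k] M) (j : M →ₗ[k] (⨂[k] _ : ZMod p, V) ⊗[k] W)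
    (hr : ∀ g u, r (TensorProduct.map (PiTensorProduct.map (fun _ => ρ g)) (σ g) u) = μ g (r u))
    (hrr : ∀ u, r (TensorProduct.map (rotMap p k V 1) LinearMap.id u) = r u)
    (hj : ∀ g m, TensorProduct.map (PiTensorProduct.map (fun _ => ρ g)) (σ g) (j m) =
      j (μ g m))
    (hjr : ∀ m, TensorProduct.map (rotMap p k V 1) LinearMap.id (j m) = j m)
    (hrj : ∀ m, r (j m) = m) (hM : ¬ p ∣ finrank k M) :
    ∃ (v : V) (a : Module.Dual k V), (∀ g, ρ g v = v) ∧ (∀ g u, a (ρ g u) = a u) ∧ a v ≠ 0 := by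
  have htrace : LinearMap.trace k V (mkDatum ρ σ μ r j hr hrr hj hjr).θ ≠ 0 := by
    intro h
    have h1 := trace_mkDatum ρ σ μ r j hr hrr hj hjr
    have h2 : r ∘ₗ j = 1 := by
      ext m
      exact hrj m
    rw [h, zero_pow hp.out.ne_zero, h2, LinearMap.trace_one] at h1
    exact hM ((CharP.cast_eq_zero_iff k p _).1 h1.symm)
  obtain ⟨v, a, hv, ha, hav⟩ :=
    (mkDatum ρ σ μ r j hr hrr hj hjr).exists_fixed_of_trace hG htrace
  refine ⟨v, a, hv, fun g u => ?_, hav⟩
  have h := ha g⁻¹
  have h2 := LinearMap.congr_fun h u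
  change a (ρ (g⁻¹)⁻¹ u) = a u at h2
  rwa [inv_inv] at h2

end datum

end Pool.Agent.Helper754
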